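import Pool.Agent.Y859.SI.Unif

set_option autoImplicit false
set_option maxHeartbeats 4000000

/-! # The final theorem -/

namespace Pool.Agent.Y859.SI

open Finset Filter Asymptotics Pool.Agent.TH827.CN Pool.Agent.TH999.CNM

/-- `m` has at most `R` prime factors (with multiplicity), the odd ones larger than
`X ^ (1 / R)` -/
def Few (R : ℕ) (X : ℝ) (m : ℕ) : Prop :=
  m.primeFactorsList.length ≤ R ∧
    ∀ p : ℕ, p.Prime → p ≠ 2 → p ∣ m → X ^ (1 / (R : ℝ)) < (p : ℝ)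

/-- the congruent numbers, as in the library -/
def Cong (n : ℕ) : Prop :=
  ∃ r s t : ℚ, 0 < r ∧ 0 < s ∧ 0 < t ∧ r ^ 2 + s ^ 2 = t ^ 2 ∧ (n : ℚ) = r * s / 2

lemma pow_len (m y : ℕ) (hm : m ≠ 0) (h : ∀ p : ℕ, p.Prime → p ∣ m → y ≤ p) :
    y ^ m.primeFactorsList.length ≤ m := by
  have key : ∀ l : List ℕ, (∀ q ∈ l, y ≤ q) → y ^ l.length ≤ l.prod := by
    intro l
    induction l with
    | nil => simp
    | cons a l ih =>
      intro hl
      rw [List.length_cons, List.prod_cons, pow_succ, mul_comm]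
      exact Nat.mul_le_mul (hl a List.mem_cons_self) (ih fun q hq => hl q (List.mem_cons_of_mem _ hq))
  have h1 := key m.primeFactorsList (fun q hq =>
    h q (Nat.prime_of_mem_primeFactorsList hq) (Nat.dvd_of_mem_primeFactorsList hq))
  rwa [Nat.prod_primeFactorsList hm] at h1

/-- the number of prime factors -/
lemma len_le (m R : ℕ) (X : ℝ) (hX : 1 ≤ X) (hR : 1 ≤ R) (hm : Squarefree m) (hm2 : (m : ℝ) ≤ 2 * X)
    (hX2 : 2 < X ^ (1 / (R : ℝ)))
    (h : ∀ p : ℕ, p.Prime → p ≠ 2 → p ∣ m → X ^ (1 / (R : ℝ)) < (p : ℝ)) :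
    m.primeFactorsList.length ≤ R + 1 := by
  have hRr : (1 : ℝ) ≤ R := by exact_mod_cast hR
  have hR0 : (0 : ℝ) < R := by linarith
  have hX0 : 0 < X := by linarith
  -- the odd case
  have odd : ∀ m' : ℕ, m' ≠ 0 → (m' : ℝ) ≤ 2 * X → (∀ p : ℕ, p.Prime → p ∣ m' →
      X ^ (1 / (R : ℝ)) < (p : ℝ)) → m'.primeFactorsList.length ≤ R := by
    intro m' hm' hle hp
    by_contra hcon
    push Not at hcon
    obtain ⟨y, hy⟩ : ∃ y : ℕ, y = ⌊X ^ (1 / (R : ℝ))⌋₊ + 1 := ⟨_, rfl⟩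
    have hy1 : X ^ (1 / (R : ℝ)) < y := by
      rw [hy]
      push_cast
      exact Nat.lt_floor_add_one _
    have h1 := pow_len m' y hm' (fun p hpp hd => by
      have h2 := hp p hpp hd
      rw [hy]
      have h3 : ⌊X ^ (1 / (R : ℝ))⌋₊ < p := by
        rw [Nat.floor_lt (by positivity)]
        exact h2
      omega)
    have h2 : ((y ^ (R + 1) : ℕ) : ℝ) ≤ ((m' : ℕ) : ℝ) := by
      have hy0 : 0 < y := by omega
      have h3 : y ^ (R + 1) ≤ m' := (Nat.pow_le_pow_right hy0 hcon).trans h1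
      exact_mod_cast h3
    push_cast at h2
    have h3 : (X ^ (1 / (R : ℝ))) ^ (R + 1) < (y : ℝ) ^ (R + 1) :=
      pow_lt_pow_left₀ hy1 (by positivity) (by omega)
    have h4 : (X ^ (1 / (R : ℝ))) ^ (R + 1) = X * X ^ (1 / (R : ℝ)) := by
      rw [pow_succ, ← Real.rpow_natCast (X ^ (1 / (R : ℝ))) R, ← Real.rpow_mul hX0.le,
        one_div_mul_cancel hR0.ne', Real.rpow_one]
    have h5 : X * 2 < X * X ^ (1 / (R : ℝ)) := mul_lt_mul_of_pos_left hX2 hX0
    linarith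
  by_cases h2 : 2 ∣ m
  · obtain ⟨m', rfl⟩ := h2
    have hm0 : m' ≠ 0 := by
      rintro rfl
      exact hm.ne_zero (by simp)
    have hm'2 : ¬ 2 ∣ m' := by
      intro hd
      have h3 : 2 * 2 ∣ 2 * m' := Nat.mul_dvd_mul_left 2 hd
      have h4 := hm 2 h3
      rw [Nat.isUnit_iff] at h4
      omega
    have h3 := (Nat.perm_primeFactorsList_mul (by norm_num : 2 ≠ 0) hm0).length_eq
    rw [List.length_append, Nat.primeFactorsList_prime Nat.prime_two, List.length_singleton] at h3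
    have h4 := odd m' hm0 (by
      have : (m' : ℝ) ≤ ((2 * m' : ℕ) : ℝ) := by exact_mod_cast (by omega : m' ≤ 2 * m')
      linarith) (fun p hp hd => h p hp (by
        rintro rfl
        exact hm'2 hd) (hd.mul_left 2))
    omega
  · have h4 := odd m hm.ne_zero hm2 (fun p hp hd => h p hp (by
      rintro rfl
      exact h2 hd) hd)
    omega

/-- **Main theorem**: for `2/3 < θ ≤ 17/24` there is `R` such that for large `X`, every modulus
`M ≤ X ^ ((θ - 2/3) / 14)` and every squarefree `k`, at least `X ^ (1/12)` squarefree congruent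
numbers `n ≡ k` modulo `8 M` lie in `[X, X + X ^ θ]` for which `n / (k, M)` has at most `R` prime
factors, the odd ones larger than `X ^ (1 / R)`. -/
theorem main (θ : ℝ) (hθ : 2 / 3 < θ) (hθ1 : θ ≤ 17 / 24) : ∃ R : ℕ, 1 ≤ R ∧ ∃ X₀ : ℝ, ∀ X : ℝ,
    X₀ ≤ X → ∀ M : ℕ, 0 < M → (M : ℝ) ≤ X ^ ((θ - 2 / 3) / 14) → ∀ k : ℕ, Squarefree k →
      X ^ (1 / 12 : ℝ) ≤ ({n : ℕ | X ≤ n ∧ (n : ℝ) ≤ X + X ^ θ ∧ Squarefree n ∧
        n ≡ k [MOD 8 * M] ∧ Cong n ∧ ∃ m, n = Nat.gcd k M * m ∧ Few R X m}.ncard : ℝ) := by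
  obtain ⟨δ, hδ⟩ : ∃ δ : ℝ, δ = θ - 2 / 3 := ⟨_, rfl⟩
  rw [← hδ]
  have hδ0 : 0 < δ := by linarith
  have hδ1 : δ ≤ 1 / 24 := by linarith
  obtain ⟨K, hK, hev⟩ := unif_z δ hδ0 hδ1
  rw [eventually_atTop] at hev
  obtain ⟨ξ0, hξ0⟩ := hev
  have hKr : (1 : ℝ) ≤ K := by exact_mod_cast hK
  refine ⟨12 * K + 1, by omega, ?_⟩
  set F : ℕ := Nat.factorial 64 with hF
  have hF0 : 0 < F := Nat.factorial_pos _
  have hF8 : 8 ∣ F := Nat.dvd_factorial (by norm_num) (by norm_num)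
  set κ : ℝ := δ / 14 with hκ
  have hκ0 : 0 < κ := by positivity
  have hexpo : (3 / 2) * (3 / 20 * δ) + (1 + 3 / 20 * δ) * ((4 + 2 * (19 / 10 * δ)) / 6) < θ := by
    have h1 : θ = 2 / 3 + δ := by rw [hδ]; ring
    rw [h1]
    nlinarith
  have hR0 : (0 : ℝ) < 1 / ((12 * K : ℕ) : ℝ) := by positivity
  have hall : ∀ᶠ X : ℝ in atTop, ∀ M : ℕ, 0 < M → (M : ℝ) ≤ X ^ κ → ∀ k : ℕ, Squarefree k →
      X ^ (1 / 12 : ℝ) ≤ ({n : ℕ | X ≤ n ∧ (n : ℝ) ≤ X + X ^ θ ∧ Squarefree n ∧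
        n ≡ k [MOD 8 * M] ∧ Cong n ∧ ∃ m, n = Nat.gcd k M * m ∧ Few (12 * K + 1) X m}.ncard : ℝ) := by
    filter_upwards [eventually_ge_atTop 1,
      (tendsto_rpow_atTop (by norm_num : (0 : ℝ) < 1 / 6)).eventually_ge_atTop ξ0,
      ev_pow (2 * κ) (3 / 20 * δ) ((F : ℝ) ^ 2) (by rw [hκ]; linarith),
      ev_pow ((3 / 2) * (3 / 20 * δ) + (1 + 3 / 20 * δ) * ((4 + 2 * (19 / 10 * δ)) / 6)) θ
        (261 * 3) hexpo,
      (tendsto_rpow_atTop hR0).eventually_gt_atTop 2] with X hX1 hXξ hXQ hXθ hX2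
    intro M hM0 hMX k hk
    have hX0 : 0 < X := by linarith
    set m : ℕ := M * F with hm
    have hm0 : 0 < m := Nat.mul_pos hM0 hF0
    set Q : ℕ := m ^ 2 with hQm
    have hQ0 : 0 < Q := by positivity
    have hQr : (1 : ℝ) ≤ Q := by exact_mod_cast hQ0
    have hQp : (0 : ℝ) < Q := by linarith
    have hm64 : ∀ p : ℕ, p.Prime → p ≤ 64 → p ∣ m :=
      fun p hp hp64 => Dvd.dvd.mul_left (Nat.dvd_factorial hp.pos hp64) _
    -- the small primes outside `2 M`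
    obtain ⟨P, hP⟩ : ∃ P : ℕ, P = ∏ p ∈ (range 65).filter (fun p => p.Prime ∧ ¬ p ∣ 8 * M), p :=
      ⟨_, rfl⟩
    have hPd : ∀ p : ℕ, p.Prime → p ≤ 64 → ¬ p ∣ 8 * M → p ∣ P := by
      intro p hp hp64 hpM
      rw [hP]
      exact dvd_prod_of_mem _ (mem_filter.2 ⟨mem_range.2 (by omega), hp, hpM⟩)
    have hcop : Nat.Coprime ((8 * M) ^ 2) P := by
      rw [hP]
      apply Nat.Coprime.prod_right
      intro p hp
      rw [mem_filter] at hp
      exact Nat.Coprime.pow_left 2 (((hp.2.1).coprime_iff_not_dvd).2 hp.2.2).symm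
    obtain ⟨k0, hk1, hk2⟩ := Nat.chineseRemainder hcop k 1
    have hQd : ∀ p : ℕ, p.Prime → p ∣ Q → p ∣ 8 * M ∨ (p ≤ 64 ∧ ¬ p ∣ 8 * M) := by
      intro p hp hpQ
      by_cases h : p ∣ 8 * M
      · exact Or.inl h
      · right
        refine ⟨?_, h⟩
        have h1 : p ∣ M * F := hp.dvd_of_dvd_pow hpQ
        rcases (hp.dvd_mul).1 h1 with h2 | h2
        · exact absurd (h2.mul_left 8) h
        · exact (hp.dvd_factorial).1 h2
    have hb0 : ∀ p : ℕ, p.Prime → p ∣ Q → ¬ p ^ 2 ∣ k0 := by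
      intro p hp hpQ hd
      rcases hQd p hp hpQ with h | ⟨h, h'⟩
      · have e1 : k0 ≡ k [MOD p ^ 2] := hk1.of_dvd (pow_dvd_pow_of_dvd h 2)
        have e2 : p ^ 2 ∣ k := (Nat.modEq_zero_iff_dvd).mp
          (e1.symm.trans ((Nat.modEq_zero_iff_dvd).mpr hd))
        rw [pow_two] at e2
        exact (Nat.squarefree_iff_prime_squarefree.mp hk) p hp e2
      · have e1 : k0 ≡ 1 [MOD p] := hk2.of_dvd (hPd p hp h h')
        have e2 : p ∣ k0 := (dvd_pow_self p two_ne_zero).trans hd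
        have e3 : (1 : ℕ) ≡ 0 [MOD p] := e1.symm.trans ((Nat.modEq_zero_iff_dvd).mpr e2)
        exact hp.one_lt.ne' (Nat.dvd_one.mp ((Nat.modEq_zero_iff_dvd).mp e3))
    have hQX : (Q : ℝ) ≤ X ^ (3 / 20 * δ) := by
      refine le_trans ?_ hXQ
      have e1 : (Q : ℝ) = (F : ℝ) ^ 2 * (M : ℝ) ^ 2 := by
        rw [hQm, hm]; push_cast; ring
      have e2 : (M : ℝ) ^ 2 ≤ (X ^ κ) ^ 2 := pow_le_pow_left₀ (Nat.cast_nonneg _) hMX 2
      have e3 : (X ^ κ) ^ 2 = X ^ (2 * κ) := by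
        rw [← Real.rpow_natCast (X ^ κ) 2, ← Real.rpow_mul hX0.le]
        congr 1
        push_cast
        ring
      rw [e1, ← e3]
      exact mul_le_mul_of_nonneg_left e2 (by positivity)
    set Y : ℝ := 3 * √3 * (Q * X) / 2 with hY
    obtain ⟨hs1, hs2⟩ := sqrt3_bounds
    have hs0 : (0 : ℝ) < √3 := by positivity
    have hXQ' : X ≤ Q * X := le_mul_of_one_le_left hX0.le hQr
    have hY0 : 0 < Y := by positivity
    have hYX : X ≤ Y := by
      rw [hY]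
      nlinarith
    have hY3 : Y ≤ 3 * (Q * X) := by
      rw [hY]
      nlinarith
    set ξ : ℝ := Y ^ (1 / 6 : ℝ) with hξ
    have hξp : 0 < ξ := by positivity
    have hξ6 : ξ ^ 6 = Y := by
      rw [hξ, ← Real.rpow_natCast (Y ^ (1 / 6 : ℝ)) 6, ← Real.rpow_mul hY0.le]
      norm_num
    have hξX : X ^ (1 / 6 : ℝ) ≤ ξ := Real.rpow_le_rpow hX0.le hYX (by norm_num)
    have hQξ : (Q : ℝ) ≤ ξ ^ (9 / 10 * δ) := by
      refine hQX.trans ?_
      have e1 : X ^ (3 / 20 * δ) = (X ^ (1 / 6 : ℝ)) ^ (9 / 10 * δ) := by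
        rw [← Real.rpow_mul hX0.le]
        congr 1
        ring
      rw [e1]
      exact Real.rpow_le_rpow (by positivity) hξX (by positivity)
    obtain ⟨A, hA1, hA2⟩ := hξ0 ξ (hXξ.trans hξX) m k0 Q hQm hm0 hm64 hb0 hQξ
    have hXeq : 2 * ξ ^ 6 / (3 * √3) / Q = X := by
      rw [hξ6, hY]
      field_simp
    rw [hXeq] at hA2
    have hpow : 261 * (Q : ℝ) ^ (3 / 2 : ℝ) * ξ ^ (4 + 2 * (19 / 10 * δ)) ≤ X ^ θ := by
      refine le_trans ?_ hXθ
      have e1 : ξ ^ (4 + 2 * (19 / 10 * δ)) = Y ^ ((4 + 2 * (19 / 10 * δ)) / 6) := by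
        rw [hξ, ← Real.rpow_mul hY0.le]
        congr 1
        ring
      have e0 : Y ≤ 3 * X ^ (1 + 3 / 20 * δ) := by
        have e : X ^ (1 + 3 / 20 * δ) = X * X ^ (3 / 20 * δ) := by
          rw [Real.rpow_add hX0, Real.rpow_one]
        rw [e]
        have := mul_le_mul_of_nonneg_right hQX hX0.le
        linarith
      have e2 : Y ^ ((4 + 2 * (19 / 10 * δ)) / 6) ≤
          (3 * X ^ (1 + 3 / 20 * δ)) ^ ((4 + 2 * (19 / 10 * δ)) / 6) :=
        Real.rpow_le_rpow hY0.le e0 (by positivity)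
      have e3 : (3 * X ^ (1 + 3 / 20 * δ)) ^ ((4 + 2 * (19 / 10 * δ)) / 6) =
          3 ^ ((4 + 2 * (19 / 10 * δ)) / 6) *
            X ^ ((1 + 3 / 20 * δ) * ((4 + 2 * (19 / 10 * δ)) / 6)) := by
        rw [Real.mul_rpow (by norm_num) (by positivity), ← Real.rpow_mul hX0.le]
      have e4 : (3 : ℝ) ^ ((4 + 2 * (19 / 10 * δ)) / 6) ≤ 3 ^ (1 : ℝ) :=
        Real.rpow_le_rpow_of_exponent_le (by norm_num) (by linarith)
      rw [Real.rpow_one] at e4
      have e5 : (Q : ℝ) ^ (3 / 2 : ℝ) ≤ X ^ ((3 / 2) * (3 / 20 * δ)) := by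
        have e6 : X ^ ((3 / 2) * (3 / 20 * δ)) = (X ^ (3 / 20 * δ)) ^ (3 / 2 : ℝ) := by
          rw [← Real.rpow_mul hX0.le]
          congr 1
          ring
        rw [e6]
        exact Real.rpow_le_rpow hQp.le hQX (by norm_num)
      rw [Real.rpow_add hX0, e1]
      have e7 : Y ^ ((4 + 2 * (19 / 10 * δ)) / 6) ≤
          3 * X ^ ((1 + 3 / 20 * δ) * ((4 + 2 * (19 / 10 * δ)) / 6)) := by
        refine e2.trans ?_
        rw [e3]
        exact mul_le_mul_of_nonneg_right e4 (by positivity)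
      calc 261 * (Q : ℝ) ^ (3 / 2 : ℝ) * Y ^ ((4 + 2 * (19 / 10 * δ)) / 6) ≤
            261 * X ^ ((3 / 2) * (3 / 20 * δ)) *
              (3 * X ^ ((1 + 3 / 20 * δ) * ((4 + 2 * (19 / 10 * δ)) / 6))) := by
            apply mul_le_mul _ e7 (by positivity) (by positivity)
            exact mul_le_mul_of_nonneg_left e5 (by norm_num)
        _ = 261 * 3 * (X ^ ((3 / 2) * (3 / 20 * δ)) *
              X ^ ((1 + 3 / 20 * δ) * ((4 + 2 * (19 / 10 * δ)) / 6))) := by ring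
    have h8M : 8 * M ∣ Q := by
      rw [hQm, hm]
      obtain ⟨c, hc⟩ := hF8
      rw [hc]
      exact ⟨8 * M * c ^ 2, by ring⟩
    have hXθX : X ^ θ ≤ X := by
      calc X ^ θ ≤ X ^ (1 : ℝ) := Real.rpow_le_rpow_of_exponent_le hX1 (by linarith)
        _ = X := Real.rpow_one X
    have hpw : X ^ (1 / ((12 * K : ℕ) : ℝ)) ≤ ξ ^ (1 / (2 * K) : ℝ) := by
      have e1 : X ^ (1 / ((12 * K : ℕ) : ℝ)) = (X ^ (1 / 6 : ℝ)) ^ (1 / (2 * K) : ℝ) := by
        rw [← Real.rpow_mul hX0.le]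
        congr 1
        push_cast
        field_simp
        norm_num
      rw [e1]
      exact Real.rpow_le_rpow (by positivity) hξX (by positivity)
    have hpw2 : X ^ (1 / ((12 * K + 1 : ℕ) : ℝ)) ≤ X ^ (1 / ((12 * K : ℕ) : ℝ)) := by
      apply Real.rpow_le_rpow_of_exponent_le hX1
      apply one_div_le_one_div_of_le (by positivity)
      push_cast
      linarith
    have hsub : (A : Set ℕ) ⊆ {n : ℕ | X ≤ n ∧ (n : ℝ) ≤ X + X ^ θ ∧ Squarefree n ∧
        n ≡ k [MOD 8 * M] ∧ Cong n ∧ ∃ m, n = Nat.gcd k M * m ∧ Few (12 * K + 1) X m} := by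
      intro n hn
      obtain ⟨⟨q1, q2, q3, q4, q5⟩, q6⟩ := hA2 n hn
      have hnX : (n : ℝ) ≤ X + X ^ θ := q2.trans (by linarith)
      have hnk : n ≡ k [MOD 8 * M] :=
        (q4.of_dvd h8M).trans (hk1.of_dvd (Dvd.intro_left (8 * M) (by ring)))
      have hnkM : n ≡ k [MOD M] := hnk.of_dvd (Dvd.intro_left 8 rfl)
      have hg : Nat.gcd n M = Nat.gcd k M := hnkM.gcd_eq
      obtain ⟨l, hl⟩ : Nat.gcd k M ∣ n := by
        rw [← hg]
        exact Nat.gcd_dvd_left _ _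
      refine ⟨q1, hnX, q3, hnk, q5, l, hl, ?_⟩
      have hln : l ∣ n := by rw [hl]; exact Dvd.intro_left _ rfl
      have hl2 : Squarefree l := q3.squarefree_of_dvd hln
      have hbig : ∀ p : ℕ, p.Prime → p ≠ 2 → p ∣ l → X ^ (1 / ((12 * K : ℕ) : ℝ)) < (p : ℝ) := by
        intro p hp hp2 hpl
        have hpn : p ∣ n := hpl.trans hln
        have hpQ : ¬ p ∣ Q := by
          intro hpQ
          by_cases hpM : p ∣ M
          · have h1 : p ∣ Nat.gcd k M := by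
              rw [← hg]
              exact Nat.dvd_gcd hpn hpM
            have h2 : p * p ∣ n := by
              rw [hl]
              exact mul_dvd_mul h1 hpl
            exact (Nat.squarefree_iff_prime_squarefree.mp q3) p hp h2
          · have hp8 : ¬ p ∣ 8 * M := by
              intro h
              rcases (hp.dvd_mul).1 h with h1 | h1
              · have h2 : p ∣ 2 ^ 3 := by
                  have : (8 : ℕ) = 2 ^ 3 := by norm_num
                  rwa [this] at h1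
                have h3 := hp.dvd_of_dvd_pow h2
                exact hp2 ((Nat.prime_dvd_prime_iff_eq hp Nat.prime_two).1 h3)
              · exact hpM h1
            rcases hQd p hp hpQ with h | ⟨h, -⟩
            · exact hp8 h
            · have e1 : k0 ≡ 1 [MOD p] := hk2.of_dvd (hPd p hp h hp8)
              have e2 : n ≡ k0 [MOD p] := q4.of_dvd hpQ
              have e3 : (1 : ℕ) ≡ 0 [MOD p] :=
                (e2.trans e1).symm.trans ((Nat.modEq_zero_iff_dvd).mpr hpn)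
              exact hp.one_lt.ne' (Nat.dvd_one.mp ((Nat.modEq_zero_iff_dvd).mp e3))
        exact lt_of_le_of_lt hpw (q6 p hp hpn hpQ)
      have hn0 : 0 < n := by
        have : (0 : ℝ) < n := by linarith
        exact_mod_cast this
      have hlX : (l : ℝ) ≤ 2 * X := by
        have h1 : (l : ℝ) ≤ n := by exact_mod_cast Nat.le_of_dvd hn0 hln
        linarith
      refine ⟨len_le l (12 * K) X hX1 (by omega) hl2 hlX hX2 hbig, ?_⟩
      intro p hp hp2 hpl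
      exact lt_of_le_of_lt hpw2 (hbig p hp hp2 hpl)
    have hfin : {n : ℕ | X ≤ n ∧ (n : ℝ) ≤ X + X ^ θ ∧ Squarefree n ∧
        n ≡ k [MOD 8 * M] ∧ Cong n ∧ ∃ m, n = Nat.gcd k M * m ∧ Few (12 * K + 1) X m}.Finite := by
      apply (Set.finite_Iic ⌊X + X ^ θ⌋₊).subset
      intro n hn
      exact Nat.le_floor hn.2.1
    have hcard : A.card ≤ ({n : ℕ | X ≤ n ∧ (n : ℝ) ≤ X + X ^ θ ∧ Squarefree n ∧
        n ≡ k [MOD 8 * M] ∧ Cong n ∧ ∃ m, n = Nat.gcd k M * m ∧ Few (12 * K + 1) X m}).ncard := by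
      rw [← Set.ncard_coe_finset]
      exact Set.ncard_le_ncard hsub hfin
    have h12 : X ^ (1 / 12 : ℝ) ≤ ξ ^ (1 / 2 : ℝ) := by
      have e1 : X ^ (1 / 12 : ℝ) = (X ^ (1 / 6 : ℝ)) ^ (1 / 2 : ℝ) := by
        rw [← Real.rpow_mul hX0.le]
        norm_num
      rw [e1]
      exact Real.rpow_le_rpow (by positivity) hξX (by positivity)
    calc X ^ (1 / 12 : ℝ) ≤ ξ ^ (1 / 2 : ℝ) := h12
      _ ≤ A.card := hA1
      _ ≤ _ := by exact_mod_cast hcard
  rw [eventually_atTop] at hall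
  obtain ⟨X₀, hX₀⟩ := hall
  exact ⟨X₀, hX₀⟩

end Pool.Agent.Y859.SI
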