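import Pool.Agent.Y859.SI.Sv
import Pool.Agent.TH999.CNM.Core

set_option autoImplicit false
set_option maxHeartbeats 4000000

/-! # The window near the maximum of `b (x ^ 4 - m ^ 4 b ^ 2)`: almost primes

After `Pool/Agent/TH999/CNM/Core.lean`. -/

namespace Pool.Agent.Y859.SI

open Finset Pool.Agent.TH827.CN Pool.Agent.TH999.CNM

open Classical in
/-- the core statement with all numerical hypotheses -/
theorem core_z (m b0 Q z : ℕ) (hQm : Q = m ^ 2) (hm0 : 0 < m)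
    (hm64 : ∀ p : ℕ, p.Prime → p ≤ 64 → p ∣ m)
    (hb0 : ∀ p : ℕ, p.Prime → p ∣ Q → ¬ p ^ 2 ∣ b0)
    (ξ L : ℝ) (x T D0 M J : ℕ) (hξ0 : 0 < ξ) (hxx0 : x ≡ 1 [MOD Q]) (hξx : ξ + 1 ≤ x)
    (hκ : 128 * ((x : ℝ) - ξ) ≤ x) (hx8 : 8 * Q ≤ x)
    (hW : ((Q : ℝ) ^ 2 * (T + 1)) ^ 2 ≤ (x : ℝ) ^ 3)
    (hD : 0 < D0) (hT : T ≤ D0 ^ 2)
    (h1 : 48 * x ^ 2 < D0 ^ 4) (h2 : 4 * (Q ^ 2 * T) < D0 ^ 2)
    (hM : 512 * (Q ^ 2 * T) * (2 ^ J * D0) ^ 2 ≤ 3 * x ^ 2 * M)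
    (h3 : Q ^ 2 * T ≤ 2 * (2 ^ J * D0))
    (hS : ∀ b : ℕ, Q * (b + Q * T) ≤ x ^ 2 →
      2 * L ≤ ((range T).filter (fun t => Sift z x b Q t)).card)
    (hrest : 3 * (T * (2 / ((z : ℝ) + 1)) + D0 +
        (J * ((M + 2) * D0) + (2 * x ^ 2) / (2 ^ J * D0) ^ 2 : ℕ)) +
      x.primeFactors.card * (T / ((z : ℝ) + 1) + 1) ≤ L) :
    ∃ A : Finset ℕ, L ≤ A.card ∧ ∀ n ∈ A, n ∈ CSet' Q b0 (2 * ξ ^ 6 / (3 * √3) / Q)
      (6 * (x ^ 2 / √3) * √(2 * (x - ξ) * x ^ 3) * (Q ^ 2 * (T + 1)) / Q) ∧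
      ∀ p : ℕ, p.Prime → p ∣ n → ¬ p ∣ Q → z < p := by
  have hQ0 : 0 < Q := by rw [hQm]; positivity
  have hQr : (0 : ℝ) < Q := by exact_mod_cast hQ0
  have hQr1 : (1 : ℝ) ≤ Q := by exact_mod_cast hQ0
  have hQ64 : ∀ p : ℕ, p.Prime → p ≤ 64 → p ∣ Q := by
    intro p hp hp64
    rw [hQm]
    exact Dvd.dvd.pow (hm64 p hp hp64) (by norm_num)
  have hQsq : ∀ p : ℕ, p.Prime → p ∣ Q → p ^ 2 ∣ Q := by
    intro p hp hpQ
    rw [hQm] at hpQ ⊢
    exact pow_dvd_pow_of_dvd (hp.dvd_of_dvd_pow hpQ) 2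
  have hxQ : ∀ p : ℕ, p.Prime → p ∣ x → ¬ p ∣ Q := by
    intro p hp hpx hpQ
    have e : x ≡ 1 [MOD p] := hxx0.of_dvd hpQ
    have e2 : (1 : ℕ) ≡ 0 [MOD p] := e.symm.trans ((Nat.modEq_zero_iff_dvd).mpr hpx)
    exact hp.one_lt.ne' (Nat.dvd_one.mp ((Nat.modEq_zero_iff_dvd).mp e2))
  have hx0 : (0 : ℝ) < x := by linarith
  have hxN : 0 < x := by omega
  obtain ⟨hs1, hs2⟩ := sqrt3_bounds
  have hs0 : (0 : ℝ) < √3 := by positivity
  have hratio : 127 * (x : ℝ) ≤ 128 * ξ := by linarith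
  have hr : 3 * (x : ℝ) ^ 5 ≤ 4 * ξ ^ 5 := by
    have e1 : (127 * (x : ℝ)) ^ 5 ≤ (128 * ξ) ^ 5 := pow_le_pow_left₀ (by positivity) hratio 5
    have e2 : (127 : ℝ) ^ 5 * (x : ℝ) ^ 5 ≤ 128 ^ 5 * ξ ^ 5 := by
      calc (127 : ℝ) ^ 5 * (x : ℝ) ^ 5 = (127 * (x : ℝ)) ^ 5 := by ring
        _ ≤ (128 * ξ) ^ 5 := e1
        _ = _ := by ring
    have h0 : (0 : ℝ) ≤ (x : ℝ) ^ 5 := by positivity
    have e3 : (3 : ℝ) * 128 ^ 5 ≤ 4 * 127 ^ 5 := by norm_num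
    nlinarith
  obtain ⟨β, hβ0, hβB, hup, hlow, hwin⟩ := interval x ξ hξ0 hξx hr
  set B : ℝ := (x : ℝ) ^ 2 / √3 with hB
  have hBup : B ≤ 0.6 * (x : ℝ) ^ 2 := by
    rw [hB, div_le_iff₀ hs0]
    nlinarith [sq_nonneg (x : ℝ)]
  have hBlow : (x : ℝ) ^ 2 / 2 ≤ B := by
    rw [hB, div_le_div_iff₀ (by norm_num) hs0]
    nlinarith [sq_nonneg (x : ℝ)]
  have hBβ : 0 ≤ B - β := by linarith
  have hWB : (Q : ℝ) ^ 2 * (T + 1) ≤ B - β :=
    abs_le_of_sq_le_sq' (hW.trans hlow) hBβ |>.2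
  have hβlow : 3 * (x : ℝ) ^ 2 / 8 ≤ β := by
    have e1 : (B - β) ^ 2 ≤ ((x : ℝ) ^ 2 / 8) ^ 2 := by
      calc (B - β) ^ 2 ≤ 2 * (x - ξ) * (x : ℝ) ^ 3 := hup
        _ ≤ x / 64 * (x : ℝ) ^ 3 := by
          apply mul_le_mul_of_nonneg_right (by linarith) (by positivity)
        _ = ((x : ℝ) ^ 2 / 8) ^ 2 := by ring
    have e2 := (abs_le_of_sq_le_sq' e1 (by positivity)).2
    linarith
  -- the starting point
  obtain ⟨b, hb1, hb2, hb3⟩ : ∃ b : ℕ, β ≤ Q * b ∧ (Q : ℝ) * b < β + Q ^ 2 ∧ b ≡ b0 [MOD Q] := by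
    set m : ℕ := ⌈β / Q⌉₊ with hm
    have hβQ0 : 0 ≤ β / Q := by positivity
    have hm1 : β / Q ≤ m := Nat.le_ceil _
    have hm2 : (m : ℝ) < β / Q + 1 := Nat.ceil_lt_add_one hβQ0
    -- the residue of `b0 - m` mod `Q`
    set r : ℕ := (b0 + (Q - m % Q)) % Q with hr'
    have hrQ : r < Q := Nat.mod_lt _ hQ0
    refine ⟨m + r, ?_, ?_, ?_⟩
    · push_cast
      have h5 : (0 : ℝ) ≤ r := Nat.cast_nonneg _
      rw [div_le_iff₀ hQr] at hm1
      have h6 : 0 ≤ (Q : ℝ) * r := by positivity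
      linarith
    · push_cast
      have h5 : (r : ℝ) + 1 ≤ Q := by exact_mod_cast hrQ
      have h6 : (m : ℝ) + r < β / Q + Q := by linarith
      have h7 : (Q : ℝ) * (m + r) < Q * (β / Q + Q) := mul_lt_mul_of_pos_left h6 hQr
      have h8 : (Q : ℝ) * (β / Q + Q) = β + Q ^ 2 := by
        field_simp
      linarith
    · have hmQ : m % Q < Q := Nat.mod_lt _ hQ0
      have e1 : m + r ≡ m % Q + (b0 + (Q - m % Q)) [MOD Q] := by
        apply Nat.ModEq.add (Nat.mod_modEq m Q).symm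
        rw [hr']
        exact Nat.mod_modEq _ _
      have e2 : m % Q + (b0 + (Q - m % Q)) = b0 + Q := by omega
      rw [e2] at e1
      exact e1.trans (by simp [Nat.ModEq])
  have hbQ : ∀ p : ℕ, p.Prime → p ∣ Q → ¬ p ^ 2 ∣ b := by
    intro p hp hpQ hd
    have e1 : b ≡ b0 [MOD p ^ 2] := hb3.of_dvd (hQsq p hp hpQ)
    have e2 : p ^ 2 ∣ b0 := (Nat.modEq_zero_iff_dvd).mp
      (e1.symm.trans ((Nat.modEq_zero_iff_dvd).mpr hd))
    exact hb0 p hp hpQ e2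
  have hbT : (Q : ℝ) * b + Q ^ 2 * T ≤ B := by
    have : (Q : ℝ) ^ 2 * (T + 1) = Q ^ 2 * T + Q ^ 2 := by ring
    linarith
  have hbTn : ((Q * b + Q ^ 2 * T : ℕ) : ℝ) ≤ 0.6 * (x : ℝ) ^ 2 := by
    push_cast
    linarith
  have hx8' : (8 : ℝ) * Q ≤ x := by exact_mod_cast hx8
  have hx1 : (8 : ℝ) ≤ x := by linarith
  have hx2r : (64 : ℝ) ≤ (x : ℝ) ^ 2 := by
    nlinarith
  have hxx : (x : ℝ) ≤ (x : ℝ) ^ 2 := by nlinarith
  have hb3' : Q * b + Q ^ 2 * T ≤ x ^ 2 := by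
    have : ((Q * b + Q ^ 2 * T : ℕ) : ℝ) ≤ ((x ^ 2 : ℕ) : ℝ) := by
      push_cast at hbTn ⊢
      linarith
    exact_mod_cast this
  have hb3'' : Q * b + Q ^ 2 * T < x ^ 2 := by
    have : ((Q * b + Q ^ 2 * T : ℕ) : ℝ) < ((x ^ 2 : ℕ) : ℝ) := by
      push_cast at hbTn ⊢
      linarith
    exact_mod_cast this
  have h3x : (3 * x ^ 2 : ℕ) ≤ 8 * (Q * b) := by
    have : ((3 * x ^ 2 : ℕ) : ℝ) ≤ ((8 * (Q * b) : ℕ) : ℝ) := by
      push_cast
      linarith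
    exact_mod_cast this
  have h8Q : 8 * Q ≤ x ^ 2 := by
    have : ((8 * Q : ℕ) : ℝ) ≤ ((x ^ 2 : ℕ) : ℝ) := by
      push_cast
      linarith
    exact_mod_cast this
  have hb1' : x ^ 2 ≤ 8 * (Q * (b - 1)) := by
    rw [Nat.mul_sub_one]
    omega
  have hb0' : 0 < b := by
    rcases Nat.eq_zero_or_pos b with h | h
    · rw [h, mul_zero] at h3x
      have e2 : 64 ≤ x ^ 2 := by exact_mod_cast hx2r
      omega
    · exact h
  have hb2' : x ^ 2 ≤ 8 * (x ^ 2 - Q * b - Q ^ 2 * T) := by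
    have e1 : 8 * (Q * b + Q ^ 2 * T) ≤ 7 * x ^ 2 := by
      have : ((8 * (Q * b + Q ^ 2 * T) : ℕ) : ℝ) ≤ ((7 * x ^ 2 : ℕ) : ℝ) := by
        push_cast at hbTn ⊢
        nlinarith
      exact_mod_cast this
    omega
  set S0 := (range T).filter (fun t => Sift z x b Q t) with hS0
  have hS0T : ∀ t ∈ S0, t < T := fun t ht => mem_range.mp (mem_filter.mp ht).1
  have hcount := good_count_z z x b Q T D0 M J hQsq hxQ hbQ hQ0 hD hT hxN hb1' hb2' hb3' h1 h2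
    hM h3 S0 hS0T (fun t ht => (mem_filter.mp ht).2)
  have hSL := hS b (by
    have e : Q * (b + Q * T) = Q * b + Q ^ 2 * T := by ring
    rw [e]
    exact hb3')
  rw [← hS0] at hSL
  set G := S0.filter (fun t => Good' x b Q t) with hG
  have hGT : ∀ t ∈ G, t < T := fun t ht => hS0T t (mem_filter.mp ht).1
  have hGcard : L ≤ G.card := by
    linarith
  -- the numbers
  set F : ℕ → ℕ := fun t => (b + Q * t) * (x ^ 2 - Q * (b + Q * t)) * (x ^ 2 + Q * (b + Q * t))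
    with hF
  have hexp : ∀ t, Q * (b + Q * t) = Q * b + Q ^ 2 * t := fun t => by ring
  have hmonoT : ∀ t, t < T → Q ^ 2 * t + Q ^ 2 ≤ Q ^ 2 * T := by
    intro t ht
    calc Q ^ 2 * t + Q ^ 2 = Q ^ 2 * (t + 1) := by ring
      _ ≤ Q ^ 2 * T := Nat.mul_le_mul_left _ ht
  have hQ2pos : 0 < Q ^ 2 := by positivity
  have hlt' : ∀ t, t < T → Q * (b + Q * t) < x ^ 2 := by
    intro t ht
    have := hmonoT t ht
    rw [hexp]
    omega
  have hFr : ∀ t, t < T → ((F t : ℕ) : ℝ) = ((Q : ℝ) * b + Q ^ 2 * t) * ((x : ℝ) ^ 4 -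
      ((Q : ℝ) * b + Q ^ 2 * t) ^ 2) / Q := by
    intro t ht
    have := hlt' t ht
    rw [hF]
    simp only
    push_cast [Nat.cast_sub this.le]
    field_simp
    ring
  have hrange : ∀ t, t < T → β ≤ (Q : ℝ) * b + Q ^ 2 * t ∧ (Q : ℝ) * b + Q ^ 2 * t ≤ B ∧
      (Q : ℝ) * b + Q ^ 2 * t - β ≤ Q ^ 2 * (T + 1) := by
    intro t ht
    have h5 : ((Q ^ 2 * t + Q ^ 2 : ℕ) : ℝ) ≤ ((Q ^ 2 * T : ℕ) : ℝ) := by
      exact_mod_cast hmonoT t ht
    push_cast at h5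
    have h6 : (0 : ℝ) ≤ (Q : ℝ) ^ 2 * t := by positivity
    have h7 : (0 : ℝ) < (Q : ℝ) ^ 2 := by positivity
    refine ⟨by linarith, by linarith, ?_⟩
    have : (Q : ℝ) ^ 2 * (T + 1) = Q ^ 2 * T + Q ^ 2 := by ring
    linarith
  have hinj : Set.InjOn F G := by
    have key : ∀ s ∈ G, ∀ t ∈ G, s < t → F s ≠ F t := by
      intro s hs t ht hst heq
      have hs' := hGT s hs
      have ht' := hGT t ht
      have h5 : ((F s : ℕ) : ℝ) = ((F t : ℕ) : ℝ) := by rw [heq]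
      rw [hFr s hs', hFr t ht'] at h5
      rw [div_left_inj' hQr.ne'] at h5
      have hstr : (s : ℝ) < t := by exact_mod_cast hst
      have h7 : (0 : ℝ) < (Q : ℝ) ^ 2 := by positivity
      have h8 : (Q : ℝ) ^ 2 * s < Q ^ 2 * t := mul_lt_mul_of_pos_left hstr h7
      have h6 := mono x ((Q : ℝ) * b + Q ^ 2 * s) ((Q : ℝ) * b + Q ^ 2 * t) hx0 (by positivity)
        (by linarith) (hrange t ht').2.1
      linarith
    intro s hs t ht heq
    rcases lt_trichotomy s t with h | h | h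
    · exact absurd heq (key s hs t ht h)
    · exact h
    · exact absurd heq.symm (key t ht s hs h)
  refine ⟨G.image F, ?_, ?_⟩
  · rw [card_image_of_injOn hinj]
    exact hGcard
  · intro n hn
    obtain ⟨t, ht, rfl⟩ := mem_image.mp hn
    have ht' := hGT t ht
    have hgood := (mem_filter.mp ht).2
    have hsif := (mem_filter.mp (mem_filter.mp ht).1).2
    have hlt := hlt' t ht'
    obtain ⟨q1, q2, q3⟩ := hrange t ht'
    obtain ⟨w1, w2⟩ := hwin _ q1 q2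
    refine ⟨⟨?_, ?_, ?_, ?_, ?_⟩, ?_⟩
    · rw [hFr t ht']
      exact div_le_div_of_nonneg_right w1 hQr.le
    · rw [hFr t ht', ← add_div]
      apply div_le_div_of_nonneg_right _ hQr.le
      refine w2.trans ?_
      have e1 : B - β ≤ √(2 * (x - ξ) * (x : ℝ) ^ 3) := Real.le_sqrt_of_sq_le hup
      have e2 : 6 * B * (B - β) * ((Q : ℝ) * b + Q ^ 2 * t - β) ≤
          6 * B * √(2 * (x - ξ) * (x : ℝ) ^ 3) * (Q ^ 2 * (T + 1)) := by
        have hB0 : 0 ≤ B := by linarith [sq_nonneg (x : ℝ)]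
        apply mul_le_mul _ q3 (by linarith) (by positivity)
        exact mul_le_mul_of_nonneg_left e1 (by positivity)
      linarith
    · exact good_squarefree' x b Q t hlt.le hQ64 hQsq hxQ hbQ hgood
    · -- the residue class
      have e : ((F t : ℕ) : ZMod Q) = ((b0 : ℕ) : ZMod Q) := by
        rw [hF]
        simp only
        push_cast [Nat.cast_sub hlt.le]
        rw [(ZMod.natCast_eq_natCast_iff _ _ _).mpr hxx0,
          (ZMod.natCast_eq_natCast_iff _ _ _).mpr hb3, ZMod.natCast_self]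
        push_cast
        ring
      exact (ZMod.natCast_eq_natCast_iff _ _ _).mp e
    · have hlt2 : m ^ 2 * (b + Q * t) < x ^ 2 := by
        rw [← hQm]
        exact hlt
      have := congruent' x (b + Q * t) m hxN hm0 (by omega) hlt2
      rw [← hQm] at this
      exact this
    · intro p hp hpn hpQ
      by_contra hcon
      push Not at hcon
      obtain ⟨n1, n2, n3⟩ := hsif p hp hpQ hcon
      rcases (hp.dvd_mul).mp hpn with h | h
      · rcases (hp.dvd_mul).mp h with h' | h'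
        · exact n1 h'
        · exact n2 h'
      · exact n3 h

end Pool.Agent.Y859.SI
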