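import Pool.Agent.Y859.SI.Core

set_option autoImplicit false
set_option maxHeartbeats 4000000

/-! # One parameter: almost primes

After `Pool/Agent/TH999/CNM/Par.lean`. -/

namespace Pool.Agent.Y859.SI

open Finset Filter Asymptotics Pool.Agent.TH827.CN Pool.Agent.TH999.CNM

open Classical in
/-- one parameter `ξ` with all the numerical hypotheses -/
theorem param_core_z (m b0 Q z K : ℕ) (hQm : Q = m ^ 2) (hm0 : 0 < m)
    (hm64 : ∀ p : ℕ, p.Prime → p ≤ 64 → p ∣ m) (hb0 : ∀ p : ℕ, p.Prime → p ∣ Q → ¬ p ^ 2 ∣ b0)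
    (η κ v : ℝ) (hη0 : 0 < η) (hη1 : η ≤ 1) (hκ0 : 0 < κ) (hκη : κ ≤ η) (hv : 0 < v) (C1 : ℝ)
    (hC1 : C1 = 2 + 3 * Q) (ξ : ℝ) (M : ℕ)
    (hM1 : 700000 * (Q : ℝ) ^ 2 * ξ ^ κ ≤ M) (h100 : 100 ≤ ξ) (h8Q : 8 * (Q : ℝ) ≤ ξ)
    (hE2 : 200 * C1 * ξ ^ η ≤ ξ ^ (1 : ℝ))
    (hE3 : 4 * ((Q : ℝ) ^ 2) ^ 2 * ξ ^ (1 + 2 * η) ≤ ξ ^ (3 : ℝ))
    (hE4 : (Q : ℝ) ^ 2 * ξ ^ (1 / 2 + η) ≤ ξ ^ (1 : ℝ))
    (hE5 : 7 * ξ ^ (1 / 2 : ℝ) ≤ ξ ^ (3 / 4 - (η - κ) / 2))
    (hE6 : (Q : ℝ) ^ 2 * ξ ^ (1 / 2 + η) ≤ ξ ^ (3 / 4 - (η - κ) / 2))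
    (hE9 : 100 * ξ ^ (0 : ℝ) ≤ ξ ^ η)
    (hG1 : 96 * (1 + Real.log ξ) ^ 4 ≤ v * (z + 1))
    (hG2 : 3120 * ((M : ℝ) + 3) * (1 + Real.log ξ) ^ 4 ≤ v * ξ ^ η)
    (hG3 : (1 + Real.log ξ) ^ 3 ≤ 3 * v * ξ ^ κ)
    (hz1 : 2 ≤ z) (hK : 1 ≤ K) (hz2 : (z : ℝ) ^ K ≤ ξ ^ (1 / 2 : ℝ))
    (hsv : ∀ T x b : ℕ, z ^ K + 1 ≤ T → Q * (b + Q * T) ≤ x ^ 2 →
      v * (T / Real.log z ^ 3) ≤ ((range T).filter (fun t => Sift z x b Q t)).card) :
    ∃ A : Finset ℕ, ξ ^ (1 / 2 : ℝ) ≤ A.card ∧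
      ∀ n ∈ A, n ∈ CSet' Q b0 (2 * ξ ^ 6 / (3 * √3) / Q) (116 * √C1 * Q * ξ ^ (4 + 2 * η)) ∧
      ∀ p : ℕ, p.Prime → p ∣ n → ¬ p ∣ Q → z < p := by
  classical
  have hQ0 : 0 < Q := by rw [hQm]; positivity
  have hQr : (1 : ℝ) ≤ Q := by exact_mod_cast hQ0
  have hQr2 : (1 : ℝ) ≤ (Q : ℝ) ^ 2 := one_le_pow₀ hQr
  have hQp : (0 : ℝ) < Q := by linarith
  have hC10 : 0 < C1 := by rw [hC1]; positivity
  have hMr : (0 : ℝ) ≤ M := Nat.cast_nonneg _
  have hξ0 : (0 : ℝ) < ξ := by linarith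
  have hξ1 : (1 : ℝ) ≤ ξ := by linarith
  rw [Real.rpow_zero, mul_one] at hE9
  rw [Real.rpow_one] at hE2 hE4
  -- abbreviations
  set u : ℝ := ξ ^ η with hu
  set w : ℝ := ξ ^ κ with hw
  have hw0 : 0 < w := by positivity
  set s : ℝ := ξ ^ (1 / 2 : ℝ) with hs
  have hs0 : 0 < s := by positivity
  have hu0 : 0 < u := by positivity
  have hss : s * s = ξ := by
    rw [hs, ← Real.rpow_add hξ0]
    norm_num
  have hs10 : 10 ≤ s := by nlinarith
  have hsu : ξ ^ (1 / 2 + η) = s * u := by rw [hs, hu, Real.rpow_add hξ0]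
  rw [hsu] at hE4 hE6
  have hE3' : 4 * ((Q : ℝ) ^ 2) ^ 2 * (ξ * u ^ 2) ≤ ξ ^ 3 := by
    have e1 : ξ ^ (1 + 2 * η) = ξ * u ^ 2 := by
      rw [Real.rpow_add hξ0, Real.rpow_one, hu, ← Real.rpow_natCast (ξ ^ η) 2,
        ← Real.rpow_mul hξ0.le]
      congr 2
      push_cast
      ring
    have e2 : ξ ^ (3 : ℝ) = ξ ^ 3 := by
      rw [← Real.rpow_natCast ξ 3]
      norm_num
    rw [e1, e2] at hE3
    exact hE3
  have hlog0 : 0 ≤ Real.log ξ := Real.log_nonneg hξ1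
  -- choice of `x`
  obtain ⟨x1, hx1a, hx1b, hx1c⟩ : ∃ x1 : ℕ, ξ + 1 ≤ x1 ∧ (x1 : ℝ) < ξ + 2 + Q ∧
      x1 ≡ 1 [MOD Q] := by
    set m : ℕ := ⌈ξ + 1⌉₊ with hm
    have hm1 : ξ + 1 ≤ m := Nat.le_ceil _
    have hm2 : (m : ℝ) < ξ + 1 + 1 := Nat.ceil_lt_add_one (by linarith)
    set r : ℕ := (1 + (Q - m % Q)) % Q with hr'
    have hrQ : r < Q := Nat.mod_lt _ hQ0
    refine ⟨m + r, ?_, ?_, ?_⟩
    · push_cast
      have : (0 : ℝ) ≤ r := Nat.cast_nonneg _
      linarith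
    · push_cast
      have : (r : ℝ) + 1 ≤ Q := by exact_mod_cast hrQ
      linarith
    · have hmQ : m % Q < Q := Nat.mod_lt _ hQ0
      have e1 : m + r ≡ m % Q + (1 + (Q - m % Q)) [MOD Q] := by
        apply Nat.ModEq.add (Nat.mod_modEq m Q).symm
        rw [hr']
        exact Nat.mod_modEq _ _
      have e2 : m % Q + (1 + (Q - m % Q)) = 1 + Q := by omega
      rw [e2] at e1
      exact e1.trans (by simp [Nat.ModEq])
  have hu1 : (1 : ℝ) ≤ u := by linarith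
  have hC1u : 200 * (C1 * u) ≤ ξ := by linarith
  have hC1b : 2 + Q ≤ C1 * u := by
    rw [hC1]
    have := mul_nonneg (by positivity : (0 : ℝ) ≤ 2 + 3 * (Q : ℝ)) (by linarith : (0 : ℝ) ≤ u - 1)
    linarith
  have hx1pos : 0 < x1 := by
    have : (0 : ℝ) < x1 := by linarith
    exact_mod_cast this
  set x : ℕ := x1 with hx
  have hxξ1 : ξ + 1 ≤ x := hx1a
  have hκ : (x : ℝ) - ξ ≤ C1 * u := by linarith
  have hx2ξ : (x : ℝ) ≤ 2 * ξ := by
    have : 0 < C1 * u := by positivity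
    linarith
  have hxN : 0 < x := hx1pos
  have hxx0 : x ≡ 1 [MOD Q] := hx1c
  -- the window length
  set T : ℕ := ⌊s * u⌋₊ with hT
  have hsu0 : 0 ≤ s * u := by positivity
  have hT1 : (T : ℝ) ≤ s * u := Nat.floor_le hsu0
  have hT2 : s * u < T + 1 := Nat.lt_floor_add_one _
  have hsu1 : 1000 ≤ s * u := by
    calc (1000 : ℝ) = 10 * 100 := by norm_num
      _ ≤ s * u := mul_le_mul hs10 hE9 (by norm_num) hs0.le
  have h100s : 100 * s ≤ s * u := by
    have := mul_le_mul_of_nonneg_left hE9 hs0.le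
    linarith
  have hsuQ : s * u ≤ (Q : ℝ) ^ 2 * (s * u) := le_mul_of_one_le_left hsu0 hQr2
  have hξsq : 0 < ξ ^ 2 := by positivity
  -- `D0`
  set D0 : ℕ := ⌈6 * s⌉₊ with hD0
  have hD1 : 6 * s ≤ D0 := Nat.le_ceil _
  have hD2 : (D0 : ℝ) < 6 * s + 1 := Nat.ceil_lt_add_one (by positivity)
  have hD2' : (D0 : ℝ) ≤ 7 * s := by linarith
  have hDpos : 0 < D0 := by
    have : (0 : ℝ) < D0 := by linarith
    exact_mod_cast this
  -- `J`
  set Λ : ℝ := 32 * ξ ^ (3 / 4 - (η - κ) / 2) with hΛ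
  have hΛD : (D0 : ℝ) ≤ Λ := by
    have : 0 < ξ ^ (3 / 4 - (η - κ) / 2) := by positivity
    rw [hΛ]
    linarith
  obtain ⟨J, hJ1, hJ2, hJ3⟩ := exJ D0 Λ hDpos hΛD
  have hΛsq : Λ ^ 2 * u = 1024 * (ξ * s * w) := by
    rw [hΛ, mul_pow, ← Real.rpow_natCast (ξ ^ (3 / 4 - (η - κ) / 2)) 2, ← Real.rpow_mul hξ0.le,
      mul_assoc, hu, ← Real.rpow_add hξ0]
    have e1 : ξ * s * w = ξ ^ (3 / 2 + κ : ℝ) := by
      rw [hs, hw]
      nth_rewrite 1 [← Real.rpow_one ξ]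
      rw [← Real.rpow_add hξ0, ← Real.rpow_add hξ0]
      norm_num
    rw [e1]
    congr 1
    · norm_num
    · congr 1
      push_cast
      ring
  have hΛ0 : 0 < Λ := by positivity
  -- the sifting level
  set l : ℝ := 1 + Real.log ξ with hl
  have hl1 : 1 ≤ l := by linarith
  have hzr : (2 : ℝ) ≤ z := by exact_mod_cast hz1
  have hzT : z ^ K + 1 ≤ T := by
    have h1 : ((z ^ K + 1 : ℕ) : ℝ) ≤ T := by
      push_cast
      linarith
    exact_mod_cast h1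
  have hlz0 : 0 < Real.log z := Real.log_pos (by linarith)
  have hlz : Real.log z ≤ l := by
    have h1 : (z : ℝ) ≤ z ^ K := by
      calc (z : ℝ) = (z : ℝ) ^ 1 := (pow_one _).symm
        _ ≤ (z : ℝ) ^ K := pow_le_pow_right₀ (by linarith) hK
    have h2 : (z : ℝ) ≤ ξ := by
      have : s ≤ ξ := by
        rw [← hss]
        exact le_mul_of_one_le_left hs0.le (by linarith)
      linarith
    have h3 : Real.log z ≤ Real.log ξ := Real.log_le_log (by linarith) h2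
    linarith
  -- core
  have hcore := core_z m b0 Q z hQm hm0 hm64 hb0 ξ (v * T / (2 * l ^ 3)) x T D0 M J hξ0 hxx0 hxξ1 (by linarith)
    (by
      have : (8 : ℝ) * Q ≤ x := by linarith
      exact_mod_cast this)
    (by
      -- `(Q ^ 2 (T + 1)) ^ 2 ≤ x ^ 3`
      have e1 : (Q : ℝ) ^ 2 * (T + 1) ≤ 2 * (Q : ℝ) ^ 2 * (s * u) := by
        have := mul_le_mul_of_nonneg_left (by linarith : (T : ℝ) + 1 ≤ 2 * (s * u))
          (by positivity : (0 : ℝ) ≤ (Q : ℝ) ^ 2)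
        linarith
      have e2 : ((Q : ℝ) ^ 2 * (T + 1)) ^ 2 ≤ (2 * (Q : ℝ) ^ 2 * (s * u)) ^ 2 :=
        pow_le_pow_left₀ (by positivity) e1 2
      have e3 : (2 * (Q : ℝ) ^ 2 * (s * u)) ^ 2 = 4 * ((Q : ℝ) ^ 2) ^ 2 * (ξ * u ^ 2) := by
        rw [← hss]; ring
      have e4 : ξ ^ 3 ≤ (x : ℝ) ^ 3 := pow_le_pow_left₀ hξ0.le (by linarith) 3
      linarith)
    hDpos
    (by
      -- `T ≤ D0 ^ 2`
      have e1 : (36 : ℝ) * ξ ≤ (D0 : ℝ) ^ 2 := by
        have := pow_le_pow_left₀ (by positivity) hD1 2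
        have e : (6 * s) ^ 2 = 36 * ξ := by rw [← hss]; ring
        linarith
      have : (T : ℝ) ≤ ((D0 ^ 2 : ℕ) : ℝ) := by
        push_cast
        linarith
      exact_mod_cast this)
    (by
      -- `48 x ^ 2 < D0 ^ 4`
      have e1 : (36 * ξ) ^ 2 ≤ (D0 : ℝ) ^ 4 := by
        have := pow_le_pow_left₀ (by positivity) hD1 4
        have e : (6 * s) ^ 4 = (36 * ξ) ^ 2 := by rw [← hss]; ring
        linarith
      have e2 : (x : ℝ) ^ 2 ≤ (2 * ξ) ^ 2 := pow_le_pow_left₀ (by positivity) hx2ξ 2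
      have : ((48 * x ^ 2 : ℕ) : ℝ) < ((D0 ^ 4 : ℕ) : ℝ) := by
        push_cast
        linarith
      exact_mod_cast this)
    (by
      -- `4 Q ^ 2 T < D0 ^ 2`
      have e1 : (36 : ℝ) * ξ ≤ (D0 : ℝ) ^ 2 := by
        have := pow_le_pow_left₀ (by positivity) hD1 2
        have e : (6 * s) ^ 2 = 36 * ξ := by rw [← hss]; ring
        linarith
      have e2 : (Q : ℝ) ^ 2 * T ≤ (Q : ℝ) ^ 2 * (s * u) :=
        mul_le_mul_of_nonneg_left hT1 (by positivity)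
      have : ((4 * (Q ^ 2 * T) : ℕ) : ℝ) < ((D0 ^ 2 : ℕ) : ℝ) := by
        push_cast
        linarith
      exact_mod_cast this)
    (by
      -- `512 Q ^ 2 T D1 ^ 2 ≤ 3 x ^ 2 M`
      have e1 : ((2 : ℝ) ^ J * D0) ^ 2 ≤ (2 * Λ) ^ 2 := pow_le_pow_left₀ (by positivity) hJ2 2
      have e2 : (Q : ℝ) ^ 2 * T ≤ (Q : ℝ) ^ 2 * (s * u) :=
        mul_le_mul_of_nonneg_left hT1 (by positivity)
      have e3 : ξ ^ 2 ≤ (x : ℝ) ^ 2 := pow_le_pow_left₀ hξ0.le (by linarith) 2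
      have : ((512 * (Q ^ 2 * T) * (2 ^ J * D0) ^ 2 : ℕ) : ℝ) ≤ ((3 * x ^ 2 * M : ℕ) : ℝ) := by
        push_cast
        calc 512 * ((Q : ℝ) ^ 2 * T) * (2 ^ J * D0) ^ 2 ≤
              512 * ((Q : ℝ) ^ 2 * (s * u)) * (2 * Λ) ^ 2 := by
              apply mul_le_mul _ e1 (by positivity) (by positivity)
              linarith
          _ = 2048 * (Q : ℝ) ^ 2 * s * (Λ ^ 2 * u) := by ring
          _ = 2097152 * (Q : ℝ) ^ 2 * ξ * (s * s) * w := by rw [hΛsq]; ring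
          _ = 2097152 * (Q : ℝ) ^ 2 * ξ ^ 2 * w := by rw [hss]; ring
          _ ≤ 3 * ξ ^ 2 * (700000 * (Q : ℝ) ^ 2 * w) := by
              have := mul_nonneg (sq_nonneg ξ) (by positivity : (0 : ℝ) ≤ (Q : ℝ) ^ 2 * w)
              linarith
          _ ≤ 3 * (x : ℝ) ^ 2 * (700000 * (Q : ℝ) ^ 2 * w) := by
              apply mul_le_mul_of_nonneg_right _ (by positivity)
              linarith
          _ ≤ 3 * (x : ℝ) ^ 2 * M := mul_le_mul_of_nonneg_left hM1 (by positivity)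
      exact_mod_cast this)
    (by
      -- `Q ^ 2 T ≤ 2 D1`
      have e2 : (Q : ℝ) ^ 2 * T ≤ (Q : ℝ) ^ 2 * (s * u) :=
        mul_le_mul_of_nonneg_left hT1 (by positivity)
      have e3 : 0 < ξ ^ (3 / 4 - (η - κ) / 2) := by positivity
      have : ((Q ^ 2 * T : ℕ) : ℝ) ≤ ((2 * (2 ^ J * D0) : ℕ) : ℝ) := by
        push_cast
        have : (Q : ℝ) ^ 2 * (s * u) ≤ Λ := by
          rw [hΛ]
          linarith
        linarith
      exact_mod_cast this)
    (by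
      intro b hb
      refine le_trans ?_ (hsv T x b hzT hb)
      have e1 : 2 * (v * T / (2 * l ^ 3)) = v * (T / l ^ 3) := by
        field_simp
      rw [e1]
      apply mul_le_mul_of_nonneg_left _ hv.le
      apply div_le_div_of_nonneg_left (by positivity) (by positivity)
      exact pow_le_pow_left₀ hlz0.le hlz 3)
    (by
      -- the rest
      have hJlog : (J : ℝ) ≤ 12 * (1 + Real.log ξ) := by
        have e1 : Real.log (2 * Λ) ≤ 5 + Real.log ξ := by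
          have e2 : 2 * Λ ≤ 64 * ξ := by
            rw [hΛ]
            have : ξ ^ (3 / 4 - (η - κ) / 2) ≤ ξ ^ (1 : ℝ) :=
              Real.rpow_le_rpow_of_exponent_le hξ1 (by linarith)
            rw [Real.rpow_one] at this
            linarith
          have e3 : Real.log (2 * Λ) ≤ Real.log (64 * ξ) := Real.log_le_log (by positivity) e2
          rw [Real.log_mul (by norm_num) hξ0.ne'] at e3
          have e4 : Real.log 64 ≤ 5 := by
            have : Real.log 64 = 6 * Real.log 2 := by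
              rw [show (64 : ℝ) = 2 ^ 6 by norm_num, Real.log_pow]
              norm_num
            have h9 := Real.log_two_lt_d9
            linarith
          linarith
        linarith
      have hdiv : (((2 * x ^ 2) / (2 ^ J * D0) ^ 2 : ℕ) : ℝ) ≤ s * u / (128 * w) := by
        refine Nat.cast_div_le.trans ?_
        push_cast
        have hΛJ : Λ ^ 2 ≤ ((2 : ℝ) ^ J * D0) ^ 2 := pow_le_pow_left₀ hΛ0.le hJ1 2
        rw [div_le_iff₀ (by positivity)]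
        have e2 : (x : ℝ) ^ 2 ≤ (2 * ξ) ^ 2 := pow_le_pow_left₀ (by positivity) hx2ξ 2
        calc 2 * (x : ℝ) ^ 2 ≤ 8 * ξ ^ 2 := by linarith
          _ = s / (128 * w) * (1024 * (ξ * s * w)) := by rw [← hss]; field_simp; ring
          _ = s / (128 * w) * (Λ ^ 2 * u) := by rw [hΛsq]
          _ = s * u / (128 * w) * Λ ^ 2 := by ring
          _ ≤ s * u / (128 * w) * (2 ^ J * D0) ^ 2 := mul_le_mul_of_nonneg_left hΛJ (by positivity)
      have hω := card_pf x hxN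
      have hlogx : Real.log x ≤ 1 + Real.log ξ := by
        have e3 : Real.log x ≤ Real.log (2 * ξ) := Real.log_le_log (by exact_mod_cast hxN) hx2ξ
        rw [Real.log_mul (by norm_num) hξ0.ne'] at e3
        have h9 := Real.log_two_lt_d9
        linarith
      push_cast at hdiv ⊢
      have hz0 : (0 : ℝ) < (z : ℝ) + 1 := by positivity
      have e5 : (J : ℝ) * ((M + 2) * D0) ≤ 12 * l * ((M + 2) * (7 * s)) := by
        apply mul_le_mul hJlog _ (by positivity) (by positivity)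
        apply mul_le_mul_of_nonneg_left hD2' (by positivity)
      have e6 : (D0 : ℝ) ≤ 7 * s * l := by
        have := mul_le_mul_of_nonneg_left hl1 (by positivity : (0 : ℝ) ≤ 7 * s)
        linarith
      have e7 : (x.primeFactors.card : ℝ) ≤ 2 * l := by linarith
      have e8 : 2 * l ≤ 2 * l * s := by
        have := mul_le_mul_of_nonneg_left (by linarith : (1 : ℝ) ≤ s)
          (by linarith : (0 : ℝ) ≤ 2 * l)
        linarith
      have e10 : 3 * ((D0 : ℝ) + ((J : ℝ) * ((M + 2) * D0))) + 2 * l * s ≤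
          260 * ((M : ℝ) + 3) * l * s := by
        have : 3 * (7 * s * l + 12 * l * ((M + 2) * (7 * s))) + 2 * l * s ≤
            260 * ((M : ℝ) + 3) * l * s := by
          have hls : 0 ≤ (8 * (M : ℝ) + 253) * (l * s) := by positivity
          have e12 : 260 * ((M : ℝ) + 3) * l * s -
              (3 * (7 * s * l + 12 * l * ((M + 2) * (7 * s))) + 2 * l * s) =
              (8 * (M : ℝ) + 253) * (l * s) := by ring
          linarith
        linarith
      -- the three parts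
      have hl3 : 0 < l ^ 3 := by positivity
      have f1 : 260 * ((M : ℝ) + 3) * l * s ≤ v * (s * u) / (12 * l ^ 3) := by
        rw [le_div_iff₀ (by positivity)]
        have := mul_le_mul_of_nonneg_left hG2 hs0.le
        calc 260 * ((M : ℝ) + 3) * l * s * (12 * l ^ 3) = s * (3120 * ((M : ℝ) + 3) * l ^ 4) := by
              ring
          _ ≤ s * (v * u) := this
          _ = v * (s * u) := by ring
      have f2 : 8 * l * (s * u) / ((z : ℝ) + 1) ≤ v * (s * u) / (12 * l ^ 3) := by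
        rw [div_le_div_iff₀ hz0 (by positivity)]
        have := mul_le_mul_of_nonneg_left hG1 hsu0
        calc 8 * l * (s * u) * (12 * l ^ 3) = s * u * (96 * l ^ 4) := by ring
          _ ≤ s * u * (v * (z + 1)) := this
          _ = v * (s * u) * (z + 1) := by ring
      have f3 : 3 * (s * u / (128 * w)) ≤ v * (s * u) / (12 * l ^ 3) := by
        rw [mul_div_assoc', div_le_div_iff₀ (by positivity) (by positivity)]
        have := mul_le_mul_of_nonneg_left hG3 hsu0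
        have hh : 0 ≤ s * u * (v * w) := by positivity
        calc 3 * (s * u) * (12 * l ^ 3) = 36 * (s * u * l ^ 3) := by ring
          _ ≤ 36 * (s * u * (3 * v * w)) := by linarith
          _ = 108 * (s * u * (v * w)) := by ring
          _ ≤ 128 * (s * u * (v * w)) := by linarith
          _ = v * (s * u) * (128 * w) := by ring
      have g1 : (T : ℝ) * (2 / ((z : ℝ) + 1)) ≤ 2 * (s * u) / ((z : ℝ) + 1) := by
        rw [mul_div_assoc']
        apply div_le_div_of_nonneg_right _ hz0.le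
        linarith
      have g2 : (x.primeFactors.card : ℝ) * (T / ((z : ℝ) + 1) + 1) ≤
          2 * l * (s * u) / ((z : ℝ) + 1) + 2 * l * s := by
        have h1 : (x.primeFactors.card : ℝ) * (T / ((z : ℝ) + 1)) ≤
            2 * l * ((s * u) / ((z : ℝ) + 1)) := by
          apply mul_le_mul e7 _ (by positivity) (by positivity)
          exact div_le_div_of_nonneg_right hT1 hz0.le
        have h2 : 2 * l * ((s * u) / ((z : ℝ) + 1)) = 2 * l * (s * u) / ((z : ℝ) + 1) := by ring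
        have h3 : (x.primeFactors.card : ℝ) * (T / ((z : ℝ) + 1) + 1) =
            (x.primeFactors.card : ℝ) * (T / ((z : ℝ) + 1)) + x.primeFactors.card := by ring
        linarith
      have g3 : 3 * (2 * (s * u) / ((z : ℝ) + 1)) + 2 * l * (s * u) / ((z : ℝ) + 1) ≤
          8 * l * (s * u) / ((z : ℝ) + 1) := by
        rw [mul_div_assoc', ← add_div]
        apply div_le_div_of_nonneg_right _ hz0.le
        have := mul_le_mul_of_nonneg_right hl1 hsu0
        linarith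
      have g4 : 3 * (v * (s * u) / (12 * l ^ 3)) ≤ v * T / (2 * l ^ 3) := by
        rw [mul_div_assoc', div_le_div_iff₀ (by positivity) (by positivity)]
        have h1 : s * u ≤ 2 * T := by linarith
        have h2 : 0 ≤ v * l ^ 3 := by positivity
        have h3 := mul_le_mul_of_nonneg_left h1 h2
        calc 3 * (v * (s * u)) * (2 * l ^ 3) = 6 * (v * l ^ 3 * (s * u)) := by ring
          _ ≤ 6 * (v * l ^ 3 * (2 * T)) := by linarith
          _ = v * T * (12 * l ^ 3) := by ring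
      linarith)
  obtain ⟨A, hA1, hA2⟩ := hcore
  refine ⟨A, ?_, ?_⟩
  · -- cardinality
    refine le_trans ?_ hA1
    rw [le_div_iff₀ (by positivity)]
    have h1 : s * u ≤ 2 * T := by linarith
    have h2 : 4 * l ^ 3 ≤ v * u := by
      refine le_trans ?_ hG2
      have e1 : l ^ 3 ≤ l ^ 4 := pow_le_pow_right₀ hl1 (by norm_num)
      have e2 : 0 ≤ l ^ 3 := by positivity
      have e3 : 0 ≤ (M : ℝ) * l ^ 4 := by positivity
      calc 4 * l ^ 3 ≤ 4 * l ^ 4 := by linarith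
        _ ≤ 3120 * ((M : ℝ) + 3) * l ^ 4 := by
          have : 0 ≤ l ^ 4 := by positivity
          nlinarith
    have h3 := mul_le_mul_of_nonneg_left h2 hs0.le
    have h4 := mul_le_mul_of_nonneg_left h1 hv.le
    calc s * (2 * l ^ 3) = s * (4 * l ^ 3) / 2 := by ring
      _ ≤ s * (v * u) / 2 := by linarith
      _ = v * (s * u) / 2 := by ring
      _ ≤ v * (2 * T) / 2 := by linarith
      _ = v * T := by ring
  · intro n hn
    obtain ⟨⟨q1, q2, q3⟩, q4⟩ := hA2 n hn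
    refine ⟨⟨q1, q2.trans ?_, q3⟩, q4⟩
    have hs3 := sqrt3_bounds
    have f1 : (x : ℝ) ^ 2 / √3 ≤ 2.4 * ξ ^ 2 := by
      have e2 : (x : ℝ) ^ 2 ≤ (2 * ξ) ^ 2 := pow_le_pow_left₀ (by positivity) hx2ξ 2
      rw [div_le_iff₀ (by positivity)]
      have := mul_le_mul_of_nonneg_left hs3.1.le (by positivity : (0 : ℝ) ≤ 2.4 * ξ ^ 2)
      linarith
    have f2 : √(2 * ((x : ℝ) - ξ) * (x : ℝ) ^ 3) ≤ 4 * √C1 * (ξ * s * u) := by
      apply Real.sqrt_le_iff.mpr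
      refine ⟨by positivity, ?_⟩
      have e3 : (x : ℝ) ^ 3 ≤ (2 * ξ) ^ 3 := pow_le_pow_left₀ (by positivity) hx2ξ 3
      have e4 : 2 * ((x : ℝ) - ξ) * (x : ℝ) ^ 3 ≤ 2 * (C1 * u) * (2 * ξ) ^ 3 := by
        apply mul_le_mul (by linarith) e3 (by positivity) (by positivity)
      have e5 : (4 * √C1 * (ξ * s * u)) ^ 2 = 16 * C1 * ξ ^ 3 * u ^ 2 := by
        have : √C1 ^ 2 = C1 := Real.sq_sqrt hC10.le
        calc (4 * √C1 * (ξ * s * u)) ^ 2 = 16 * (√C1 ^ 2) * ξ ^ 2 * (s * s) * u ^ 2 := by ring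
          _ = 16 * C1 * ξ ^ 3 * u ^ 2 := by rw [this, hss]; ring
      rw [e5]
      have e6 : u ≤ u ^ 2 := by
        have := mul_le_mul_of_nonneg_left hu1 hu0.le
        linarith
      calc 2 * ((x : ℝ) - ξ) * (x : ℝ) ^ 3 ≤ 2 * (C1 * u) * (2 * ξ) ^ 3 := e4
        _ = 16 * C1 * ξ ^ 3 * u := by ring
        _ ≤ 16 * C1 * ξ ^ 3 * u ^ 2 := mul_le_mul_of_nonneg_left e6 (by positivity)
    have f3 : (Q : ℝ) ^ 2 * (T + 1) ≤ 2 * (Q : ℝ) ^ 2 * (s * u) := by
      have := mul_le_mul_of_nonneg_left (by linarith : (T : ℝ) + 1 ≤ 2 * (s * u))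
        (by positivity : (0 : ℝ) ≤ (Q : ℝ) ^ 2)
      linarith
    have f4 : ξ ^ (4 + 2 * η) = ξ ^ 4 * u ^ 2 := by
      rw [Real.rpow_add hξ0, hu, ← Real.rpow_natCast ξ 4, ← Real.rpow_natCast (ξ ^ η) 2,
        ← Real.rpow_mul hξ0.le]
      congr 2
      push_cast
      ring
    have f5 : 6 * ((x : ℝ) ^ 2 / √3) * √(2 * ((x : ℝ) - ξ) * (x : ℝ) ^ 3) *
        ((Q : ℝ) ^ 2 * (T + 1)) ≤
        6 * (2.4 * ξ ^ 2) * (4 * √C1 * (ξ * s * u)) * (2 * (Q : ℝ) ^ 2 * (s * u)) := by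
      apply mul_le_mul _ f3 (by positivity) (by positivity)
      apply mul_le_mul _ f2 (by positivity) (by positivity)
      linarith
    have f6 : 6 * (2.4 * ξ ^ 2) * (4 * √C1 * (ξ * s * u)) * (2 * (Q : ℝ) ^ 2 * (s * u)) ≤
        116 * √C1 * Q * ξ ^ (4 + 2 * η) * Q := by
      rw [f4]
      calc 6 * (2.4 * ξ ^ 2) * (4 * √C1 * (ξ * s * u)) * (2 * (Q : ℝ) ^ 2 * (s * u)) =
            115.2 * (√C1 * (Q : ℝ) ^ 2 * ξ ^ 3 * (s * s) * u ^ 2) := by ring
        _ = 115.2 * (√C1 * (Q : ℝ) ^ 2 * ξ ^ 4 * u ^ 2) := by rw [hss]; ring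
        _ ≤ 116 * (√C1 * (Q : ℝ) ^ 2 * ξ ^ 4 * u ^ 2) := by
            apply mul_le_mul_of_nonneg_right (by norm_num) (by positivity)
        _ = 116 * √C1 * Q * (ξ ^ 4 * u ^ 2) * Q := by ring
    have f7 : 6 * ((x : ℝ) ^ 2 / √3) * √(2 * ((x : ℝ) - ξ) * (x : ℝ) ^ 3) *
        ((Q : ℝ) ^ 2 * (T + 1)) / Q ≤ 116 * √C1 * Q * ξ ^ (4 + 2 * η) := by
      rw [div_le_iff₀ hQp]
      exact f5.trans f6
    linarith

end Pool.Agent.Y859.SI
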