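import Pool.Agent.Y859.SI.Sv
import Pool.Agent.TH464.PO.Gen

set_option autoImplicit false
set_option maxHeartbeats 4000000

/-! # The lower bound sieve for the three linear forms -/

namespace Pool.Agent.Y859.SI

open Finset Filter
open Pool.Agent.W123.RP Pool.Agent.H373R2.T7 Pool.Agent.TH464.PW Pool.Agent.TH464.PO

/-- one class -/
lemma one_root (p : ℕ) (hp : p.Prime) (α β : ℤ) (hα : ¬ (p : ℤ) ∣ α) (S : Finset ℕ)
    (hS : ∀ t ∈ S, t < p ∧ (p : ℤ) ∣ β + α * t) : S.card ≤ 1 := by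
  rw [Finset.card_le_one]
  intro s hs t ht
  obtain ⟨h1, h2⟩ := hS s hs
  obtain ⟨h3, h4⟩ := hS t ht
  have h5 : (p : ℤ) ∣ α * ((s : ℤ) - t) := by
    have := dvd_sub h2 h4
    have e : β + α * (s : ℤ) - (β + α * t) = α * ((s : ℤ) - t) := by ring
    rwa [e] at this
  have hpi : Prime (p : ℤ) := Nat.prime_iff_prime_int.mp hp
  rcases hpi.dvd_or_dvd h5 with h | h
  · exact absurd h hα
  · have h6 : (s : ℤ) - t = 0 := by
      apply Int.eq_zero_of_abs_lt_dvd h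
      rw [abs_lt]
      constructor <;> omega
    omega

/-- the sifting conditions -/
def Qc (x b Q : ℤ) (p t : ℕ) : Prop := ¬ (p : ℤ) ∣ Q ∧ ((p : ℤ) ∣ b + Q * t ∨
  (p : ℤ) ∣ (x ^ 2 - Q * b) + (-Q ^ 2) * t ∨ (p : ℤ) ∣ (x ^ 2 + Q * b) + Q ^ 2 * t)

lemma dvd_mod (p t : ℕ) (α β : ℤ) : (p : ℤ) ∣ β + α * t ↔ (p : ℤ) ∣ β + α * ((t % p : ℕ) : ℤ) := by
  have h : (β + α * t) = (β + α * ((t % p : ℕ) : ℤ)) + (p : ℤ) * (α * ((t / p : ℕ) : ℤ)) := by
    have h1 : (t : ℤ) = ((t % p : ℕ) : ℤ) + (p : ℤ) * ((t / p : ℕ) : ℤ) := by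
      exact_mod_cast (Nat.mod_add_div t p).symm
    nth_rewrite 1 [h1]
    ring
  rw [h]
  exact dvd_add_left (dvd_mul_right _ _)

open Classical in
lemma nu_le (x b Q : ℤ) (p : ℕ) (hp : p.Prime) : nuB (Qc x b Q) p ≤ 3 ∧
    ((p : ℤ) ∣ Q → nuB (Qc x b Q) p = 0) := by
  constructor
  · unfold nuB
    by_cases hpQ : (p : ℤ) ∣ Q
    · rw [Finset.card_eq_zero.2]
      · norm_num
      · apply filter_eq_empty_iff.mpr
        intro t _ h
        exact h.1 hpQ
    · have hpi : Prime (p : ℤ) := Nat.prime_iff_prime_int.mp hp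
      have hpQ2 : ¬ (p : ℤ) ∣ Q ^ 2 := fun h => hpQ (hpi.dvd_of_dvd_pow h)
      have hpQ2' : ¬ (p : ℤ) ∣ -Q ^ 2 := fun h => hpQ2 ((dvd_neg).1 h)
      have h1 := one_root p hp Q b hpQ ((range p).filter (fun t : ℕ => (p : ℤ) ∣ b + Q * t))
        (fun t ht => by
          rw [mem_filter, mem_range] at ht
          exact ht)
      have h2 := one_root p hp (-Q ^ 2) (x ^ 2 - Q * b) hpQ2'
        ((range p).filter (fun t : ℕ => (p : ℤ) ∣ (x ^ 2 - Q * b) + (-Q ^ 2) * t))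
        (fun t ht => by
          rw [mem_filter, mem_range] at ht
          exact ht)
      have h3 := one_root p hp (Q ^ 2) (x ^ 2 + Q * b) hpQ2
        ((range p).filter (fun t : ℕ => (p : ℤ) ∣ (x ^ 2 + Q * b) + Q ^ 2 * t))
        (fun t ht => by
          rw [mem_filter, mem_range] at ht
          exact ht)
      have hsub : (range p).filter (fun t => Qc x b Q p t) ⊆
          ((range p).filter (fun t : ℕ => (p : ℤ) ∣ b + Q * t)) ∪
          (((range p).filter (fun t : ℕ => (p : ℤ) ∣ (x ^ 2 - Q * b) + (-Q ^ 2) * t)) ∪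
          ((range p).filter (fun t : ℕ => (p : ℤ) ∣ (x ^ 2 + Q * b) + Q ^ 2 * t))) := by
        intro t ht
        rw [mem_filter] at ht
        obtain ⟨h4, -, h5⟩ := ht
        rw [mem_union, mem_union, mem_filter, mem_filter, mem_filter]
        rcases h5 with h | h | h
        · exact Or.inl ⟨h4, h⟩
        · exact Or.inr (Or.inl ⟨h4, h⟩)
        · exact Or.inr (Or.inr ⟨h4, h⟩)
      have h4 := (card_le_card hsub).trans (card_union_le _ _)
      have h5 := card_union_le ((range p).filter (fun t : ℕ => (p : ℤ) ∣ (x ^ 2 - Q * b) +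
        (-Q ^ 2) * t)) ((range p).filter (fun t : ℕ => (p : ℤ) ∣ (x ^ 2 + Q * b) + Q ^ 2 * t))
      omega
  · intro hpQ
    unfold nuB
    rw [Finset.card_eq_zero]
    apply filter_eq_empty_iff.mpr
    intro t _ h
    exact h.1 hpQ

lemma perB_Qc (x b Q : ℤ) : PerB (Qc x b Q) 3 where
  per := by
    intro p t
    unfold Qc
    rw [← dvd_mod p t Q b, ← dvd_mod p t (-Q ^ 2) (x ^ 2 - Q * b),
      ← dvd_mod p t (Q ^ 2) (x ^ 2 + Q * b)]
  few := fun p hp => (nu_le x b Q p hp).1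

open Classical in
/-- **the sieve** -/
theorem sift_low : ∃ K z0 : ℕ, 1 ≤ K ∧ 2 ≤ z0 ∧ ∃ v : ℝ, 0 < v ∧ ∀ T z : ℕ, z0 ≤ z →
    z ^ K + 1 ≤ T → ∀ x b Q : ℕ, (∀ p : ℕ, p.Prime → p ≤ 64 → p ∣ Q) → Q * (b + Q * T) ≤ x ^ 2 →
      v * (T / Real.log z ^ 3) ≤ ((range T).filter (fun t => Sift z x b Q t)).card := by
  obtain ⟨v0, hv0, hV⟩ := V_lower_unif 3
  obtain ⟨K, x0, hK, hF⟩ := sys_fund 3 (by norm_num) (1 / 2) (by norm_num)
  have hev := logpow_rpow 3 (4 / v0) (1 / 2) (by positivity) (by norm_num)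
  rw [eventually_atTop] at hev
  obtain ⟨n0, hn0⟩ := hev
  refine ⟨K, max (max x0 n0) 2, hK, le_max_right _ _, v0 / 8, by positivity, ?_⟩
  intro T z hz hzT x b Q hQ hx
  have hz1 : x0 ≤ z := ((le_max_left _ _).trans (le_max_left _ _)).trans hz
  have hz2 : n0 ≤ z := ((le_max_right _ _).trans (le_max_left _ _)).trans hz
  have hz3 : 2 ≤ z := (le_max_right _ _).trans hz
  obtain ⟨N, hN⟩ : ∃ N, T = N + 1 := ⟨T - 1, by omega⟩
  have hzN : z ^ K ≤ N := by omega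
  have hzN1 : z ≤ N := by
    calc z = z ^ 1 := (pow_one z).symm
      _ ≤ z ^ K := Nat.pow_le_pow_right (by omega) hK
      _ ≤ N := hzN
  have hadm : ∀ p : ℕ, p.Prime → nuB (Qc x b Q) p < p := by
    intro p hp
    by_cases h : p ≤ 64
    · rw [(nu_le x b Q p hp).2 (by exact_mod_cast hQ p hp h)]
      exact hp.pos
    · have := (nu_le x b Q p hp).1
      omega
  have h1 := hF N z hz1 hzN (Qc x b Q) (perB_Qc x b Q) N
  have h2 := hV (Qc x b Q) (perB_Qc x b Q) hadm z hz3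
  unfold Vq at h2
  obtain ⟨V, hVd⟩ : ∃ V : ℝ, V = ∏ p ∈ pz z, (1 - (nuB (Qc x b Q) p : ℝ) / p) := ⟨_, rfl⟩
  rw [← hVd] at h1 h2
  have hzr : (2 : ℝ) ≤ z := by exact_mod_cast hz3
  have hL : 0 < Real.log z := Real.log_pos (by linarith)
  have hL3 : 0 < Real.log z ^ 3 := by positivity
  have hNr : (z : ℝ) ≤ N := by exact_mod_cast hzN1
  have hN0 : (0 : ℝ) < N := by linarith
  have h3 := hn0 z hz2
  -- `√N ≤ N V / 4`
  have h4 : √(N : ℝ) ≤ N * V / 4 := by
    have e1 : Real.log z ^ 3 * (4 / v0) ≤ √(N : ℝ) := by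
      have e2 : (z : ℝ) ^ ((1 : ℝ) / 2) ≤ √(N : ℝ) := by
        rw [← Real.sqrt_eq_rpow]
        exact Real.sqrt_le_sqrt hNr
      rw [mul_comm]
      exact h3.trans e2
    have e3 : √(N : ℝ) * √(N : ℝ) = N := Real.mul_self_sqrt hN0.le
    have e4 : 4 ≤ √(N : ℝ) * V := by
      calc (4 : ℝ) = (Real.log z ^ 3 * (4 / v0)) * (v0 / Real.log z ^ 3) := by
            field_simp
        _ ≤ √(N : ℝ) * V := mul_le_mul e1 h2 (by positivity) (by positivity)
    have e5 : 0 ≤ √(N : ℝ) := Real.sqrt_nonneg _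
    have e6 := mul_le_mul_of_nonneg_left e4 e5
    have e7 : √(N : ℝ) * (√(N : ℝ) * V) = N * V := by rw [← mul_assoc, e3]
    linarith
  have h5 := (abs_le.1 h1).1
  have h6 : (N : ℝ) * V / 4 ≤ (((Icc 1 N).filter (fun n : ℕ => ∀ p ∈ pz z, ¬ Qc x b Q p n)).card : ℝ) := by
    linarith
  have h7 : ((Icc 1 N).filter (fun n : ℕ => ∀ p ∈ pz z, ¬ Qc x b Q p n)).card ≤
      ((range T).filter (fun t => Sift z x b Q t)).card := by
    apply card_le_card
    intro t ht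
    rw [mem_filter, mem_Icc] at ht
    obtain ⟨⟨ht1, ht2⟩, ht3⟩ := ht
    rw [mem_filter, mem_range]
    refine ⟨by omega, ?_⟩
    intro p hp hpQ hpz
    have h8 := ht3 p (mem_pz.2 ⟨hpz, hp⟩)
    have h9 : ¬ (p : ℤ) ∣ (Q : ℤ) := by exact_mod_cast hpQ
    have hle : Q * (b + Q * t) ≤ x ^ 2 := by
      refine le_trans ?_ hx
      apply Nat.mul_le_mul_left
      apply Nat.add_le_add_left
      apply Nat.mul_le_mul_left
      omega
    refine ⟨?_, ?_, ?_⟩
    · intro hd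
      apply h8
      refine ⟨h9, Or.inl ?_⟩
      exact_mod_cast hd
    · intro hd
      apply h8
      refine ⟨h9, Or.inr (Or.inl ?_)⟩
      have e : ((x ^ 2 - Q * (b + Q * t) : ℕ) : ℤ) = ((x : ℤ) ^ 2 - Q * b) + (-(Q : ℤ) ^ 2) * t := by
        push_cast [Nat.cast_sub hle]
        ring
      rw [← e]
      exact_mod_cast hd
    · intro hd
      apply h8
      refine ⟨h9, Or.inr (Or.inr ?_)⟩
      have e : ((x ^ 2 + Q * (b + Q * t) : ℕ) : ℤ) = ((x : ℤ) ^ 2 + Q * b) + (Q : ℤ) ^ 2 * t := by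
        push_cast
        ring
      rw [← e]
      exact_mod_cast hd
  have h8 : (((Icc 1 N).filter (fun n : ℕ => ∀ p ∈ pz z, ¬ Qc x b Q p n)).card : ℝ) ≤
      ((range T).filter (fun t => Sift z x b Q t)).card := by exact_mod_cast h7
  refine le_trans ?_ (h6.trans h8)
  have h9 : (T : ℝ) ≤ 2 * N := by
    rw [hN]
    push_cast
    linarith
  calc v0 / 8 * (T / Real.log z ^ 3) ≤ v0 / 8 * ((2 * N) / Real.log z ^ 3) := by
        apply mul_le_mul_of_nonneg_left _ (by positivity)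
        exact div_le_div_of_nonneg_right h9 hL3.le
    _ = N * (v0 / Real.log z ^ 3) / 4 := by ring
    _ ≤ N * V / 4 := by
        have := mul_le_mul_of_nonneg_left h2 hN0.le
        linarith

end Pool.Agent.Y859.SI
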