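import Pool.Agent.TH999.CNM.Sv

set_option autoImplicit false
set_option maxHeartbeats 4000000

/-! # Sifted sets: removing the squares of the large primes

The lemmas are those of `Pool/Agent/TH827/CN/Sieve.lean` and `Pool/Agent/TH999/CNM/Sv.lean` with a
general bound `z` in place of `64`. -/

namespace Pool.Agent.Y859.SI

open Finset Pool.Agent.TH827.CN Pool.Agent.TH999.CNM

/-- no prime `p ≤ z` outside `Q` divides one of the three forms -/
def Sift (z x b Q t : ℕ) : Prop := ∀ p : ℕ, p.Prime → ¬ p ∣ Q → p ≤ z →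
  ¬ p ∣ b + Q * t ∧ ¬ p ∣ x ^ 2 - Q * (b + Q * t) ∧ ¬ p ∣ x ^ 2 + Q * (b + Q * t)

/-- one form: few indices `t < T` for which `ℓ t` is divisible by the square of a prime `> z` -/
lemma form_bad_z (z N h D0 M J T : ℕ) (ℓ : ℕ → ℕ) (hN : 0 < N) (hD : 0 < D0)
    (hwin : ∀ t, t < T → N < ℓ t ∧ ℓ t ≤ N + h)
    (hcong : ∀ p : ℕ, p.Prime → z < p → ∀ s t, s < T → t < T → p ^ 2 ∣ ℓ s → p ^ 2 ∣ ℓ t →
      s % p ^ 2 = t % p ^ 2)
    (hT : T ≤ D0 ^ 2)
    (h1 : 24 * N < D0 ^ 4) (h2 : 4 * h < D0 ^ 2) (hM : 64 * h * (2 ^ J * D0) ^ 2 ≤ 3 * N * M)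
    (h3 : h ≤ 2 * (2 ^ J * D0)) (S : Finset ℕ) (hS : ∀ t ∈ S, t < T)
    (hS2 : ∀ t ∈ S, ∃ p : ℕ, p.Prime ∧ z < p ∧ p ^ 2 ∣ ℓ t) :
    (S.card : ℝ) ≤ T * (2 / ((z : ℝ) + 1)) + D0 + (J * ((M + 2) * D0) + (N + h) / (2 ^ J * D0) ^ 2 : ℕ) := by
  classical
  set S1 := (Ioo z D0).biUnion (fun p => S.filter (fun t => p.Prime ∧ p ^ 2 ∣ ℓ t)) with hS1
  set S3 := S.filter (fun t => ∃ p : ℕ, p.Prime ∧ z < p ∧ D0 ≤ p ∧ p ^ 2 ∣ ℓ t) with hS3
  have hcov : S ⊆ S1 ∪ S3 := by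
    intro t ht
    obtain ⟨p, hp, hp64, hpd⟩ := hS2 t ht
    by_cases hpD : p < D0
    · apply mem_union_left
      rw [hS1, mem_biUnion]
      exact ⟨p, mem_Ioo.mpr ⟨hp64, hpD⟩, mem_filter.mpr ⟨ht, hp, hpd⟩⟩
    · apply mem_union_right
      exact mem_filter.mpr ⟨ht, p, hp, hp64, by omega, hpd⟩
  have hc : S.card ≤ S1.card + S3.card := (card_le_card hcov).trans (card_union_le _ _)
  -- small primes
  have hc1 : (S1.card : ℝ) ≤ T * (2 / ((z : ℝ) + 1)) + D0 := by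
    have e1 : (S1.card : ℝ) ≤ ∑ p ∈ Ioo z D0, ((T : ℝ) * ((p : ℝ) ^ 2)⁻¹ + 1) := by
      have e0 : S1.card ≤ ∑ p ∈ Ioo z D0,
          (S.filter (fun t => p.Prime ∧ p ^ 2 ∣ ℓ t)).card := card_biUnion_le
      calc (S1.card : ℝ) ≤ ((∑ p ∈ Ioo z D0,
          (S.filter (fun t => p.Prime ∧ p ^ 2 ∣ ℓ t)).card : ℕ) : ℝ) := by exact_mod_cast e0
        _ = ∑ p ∈ Ioo z D0, ((S.filter (fun t => p.Prime ∧ p ^ 2 ∣ ℓ t)).card : ℝ) := by
            push_cast; rfl
        _ ≤ ∑ p ∈ Ioo z D0, ((T : ℝ) * ((p : ℝ) ^ 2)⁻¹ + 1) := by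
            apply sum_le_sum
            intro p hp
            rw [mem_Ioo] at hp
            by_cases hpp : p.Prime
            · have e2 := res_card (p ^ 2) T (by have := hpp.pos; positivity)
                (S.filter (fun t => p.Prime ∧ p ^ 2 ∣ ℓ t))
                (fun t ht => hS t (mem_filter.mp ht).1)
                (fun s hs t ht => hcong p hpp hp.1 s t (hS s (mem_filter.mp hs).1)
                  (hS t (mem_filter.mp ht).1) (mem_filter.mp hs).2.2 (mem_filter.mp ht).2.2)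
              have e3 : ((T / p ^ 2 : ℕ) : ℝ) ≤ (T : ℝ) * ((p : ℝ) ^ 2)⁻¹ := by
                refine Nat.cast_div_le.trans (le_of_eq ?_)
                push_cast
                rw [div_eq_mul_inv]
              calc ((S.filter (fun t => p.Prime ∧ p ^ 2 ∣ ℓ t)).card : ℝ) ≤
                    ((T / p ^ 2 + 1 : ℕ) : ℝ) := by exact_mod_cast e2
                _ = ((T / p ^ 2 : ℕ) : ℝ) + 1 := by push_cast; rfl
                _ ≤ (T : ℝ) * ((p : ℝ) ^ 2)⁻¹ + 1 := by linarith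
            · have e2 : S.filter (fun t => p.Prime ∧ p ^ 2 ∣ ℓ t) = ∅ := by
                apply filter_eq_empty_iff.mpr
                intro t _ h4
                exact hpp h4.1
              rw [e2]
              simp only [card_empty, Nat.cast_zero]
              positivity
    rw [sum_add_distrib, ← mul_sum] at e1
    have e4 : (∑ i ∈ Ioo z D0, ((i : ℝ) ^ 2)⁻¹) ≤ 2 / ((z : ℕ) + 1) :=
      sum_Ioo_inv_sq_le z D0
    have e5 : (∑ _i ∈ Ioo z D0, (1 : ℝ)) ≤ D0 := by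
      rw [sum_const, nsmul_eq_mul, mul_one]
      have : (Ioo z D0).card ≤ D0 := by
        rw [Nat.card_Ioo]
        omega
      exact_mod_cast this
    have e6 : (T : ℝ) * (∑ i ∈ Ioo z D0, ((i : ℝ) ^ 2)⁻¹) ≤ T * (2 / ((z : ℝ) + 1)) := by
      exact mul_le_mul_of_nonneg_left e4 (Nat.cast_nonneg _)
    linarith
  -- large primes
  have hc3 : S3.card ≤ J * ((M + 2) * D0) + (N + h) / (2 ^ J * D0) ^ 2 := by
    have hch : ∀ t ∈ S3, ∃ p : ℕ, p.Prime ∧ z < p ∧ D0 ≤ p ∧ p ^ 2 ∣ ℓ t := fun t ht =>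
      (mem_filter.mp ht).2
    choose! f hf using hch
    have hinj : Set.InjOn f S3 := by
      intro s hs t ht hst
      obtain ⟨h4, h5, h6, h7⟩ := hf s hs
      obtain ⟨h4', h5', h6', h7'⟩ := hf t ht
      rw [← hst] at h7'
      have hs' := hS s (mem_filter.mp hs).1
      have ht' := hS t (mem_filter.mp ht).1
      have h8 := hcong (f s) h4 h5 s t hs' ht' h7 h7'
      have h9 : T ≤ f s ^ 2 := hT.trans (Nat.pow_le_pow_left h6 2)
      rwa [Nat.mod_eq_of_lt (by omega), Nat.mod_eq_of_lt (by omega)] at h8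
    rw [← card_image_of_injOn hinj]
    apply few N h D0 M J hN hD _ _ _ h1 h2 hM h3
    · intro d hd
      obtain ⟨t, ht, rfl⟩ := mem_image.mp hd
      obtain ⟨h4, h5, h6, m, hm⟩ := hf t ht
      obtain ⟨h8, h9⟩ := hwin t (hS t (mem_filter.mp ht).1)
      refine ⟨m, ?_, ?_⟩
      · rw [mul_comm, ← hm]
        exact h8
      · rw [mul_comm, ← hm]
        exact h9
    · intro d hd
      obtain ⟨t, ht, rfl⟩ := mem_image.mp hd
      exact (hf t ht).2.2.1
  have hc' : (S.card : ℝ) ≤ S1.card + S3.card := by exact_mod_cast hc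
  have hc3' : (S3.card : ℝ) ≤
      ((J * ((M + 2) * D0) + (N + h) / (2 ^ J * D0) ^ 2 : ℕ) : ℝ) := by exact_mod_cast hc3
  linarith

/-- the greatest common divisor condition -/
lemma gcd_bad_z (z x b Q T : ℕ) (hQ : ∀ p : ℕ, p.Prime → p ∣ x → ¬ p ∣ Q) (S : Finset ℕ)
    (hS : ∀ t ∈ S, t < T)
    (hS2 : ∀ t ∈ S, ∃ p : ℕ, p.Prime ∧ z < p ∧ p ∣ x ∧ p ∣ b + Q * t) (hx : x ≠ 0) :
    (S.card : ℝ) ≤ x.primeFactors.card * (T / ((z : ℝ) + 1) + 1) := by
  classical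
  have hcov : S ⊆ (x.primeFactors.filter (fun p => z < p)).biUnion (fun p =>
      S.filter (fun t => p ∣ b + Q * t)) := by
    intro t ht
    obtain ⟨p, hp, hpz, hpx, hpb⟩ := hS2 t ht
    rw [mem_biUnion]
    exact ⟨p, mem_filter.mpr ⟨Nat.mem_primeFactors.mpr ⟨hp, hpx, hx⟩, hpz⟩,
      mem_filter.mpr ⟨ht, hpb⟩⟩
  have h1 : S.card ≤ ∑ p ∈ x.primeFactors.filter (fun p => z < p),
      (S.filter (fun t => p ∣ b + Q * t)).card := (card_le_card hcov).trans card_biUnion_le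
  have h2 : (S.card : ℝ) ≤ ∑ _p ∈ x.primeFactors.filter (fun p => z < p),
      ((T : ℝ) / ((z : ℝ) + 1) + 1) := by
    calc (S.card : ℝ) ≤ ((∑ p ∈ x.primeFactors.filter (fun p => z < p),
        (S.filter (fun t => p ∣ b + Q * t)).card : ℕ) : ℝ) := by exact_mod_cast h1
      _ = ∑ p ∈ x.primeFactors.filter (fun p => z < p),
        ((S.filter (fun t => p ∣ b + Q * t)).card : ℝ) := by push_cast; rfl
      _ ≤ _ := by
        apply sum_le_sum
        intro p hp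
        rw [mem_filter] at hp
        have hpp := Nat.prime_of_mem_primeFactors hp.1
        have e2 := res_card p T hpp.pos (S.filter (fun t => p ∣ b + Q * t))
          (fun t ht => hS t (mem_filter.mp ht).1) (by
            intro s hs t ht
            have hs1 := (mem_filter.mp hs).2
            have ht1 := (mem_filter.mp ht).2
            have h3 : (b + Q * s) ≡ (b + Q * t) [MOD p] := by
              rw [Nat.ModEq, Nat.mod_eq_zero_of_dvd hs1, Nat.mod_eq_zero_of_dvd ht1]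
            have h4 : Q * s ≡ Q * t [MOD p] := Nat.ModEq.add_left_cancel' b h3
            have hcop : Nat.gcd p Q = 1 := (Nat.Prime.coprime_iff_not_dvd hpp).mpr
              (hQ p hpp (Nat.dvd_of_mem_primeFactors hp.1))
            exact Nat.ModEq.cancel_left_of_coprime hcop h4)
        have e3 : ((T / p : ℕ) : ℝ) ≤ (T : ℝ) / ((z : ℝ) + 1) := by
          refine Nat.cast_div_le.trans ?_
          apply div_le_div_of_nonneg_left (Nat.cast_nonneg _) (by positivity)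
          exact_mod_cast hp.2
        calc ((S.filter (fun t => p ∣ b + Q * t)).card : ℝ) ≤
              ((T / p + 1 : ℕ) : ℝ) := by exact_mod_cast e2
          _ = ((T / p : ℕ) : ℝ) + 1 := by push_cast; rfl
          _ ≤ _ := by linarith
  rw [sum_const, nsmul_eq_mul] at h2
  refine h2.trans ?_
  apply mul_le_mul_of_nonneg_right _ (by positivity)
  exact_mod_cast card_le_card (filter_subset _ _)

open Classical in
theorem good_count_z (z x b Q T D0 M J : ℕ)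
    (hQsq : ∀ p : ℕ, p.Prime → p ∣ Q → p ^ 2 ∣ Q)
    (hxQ : ∀ p : ℕ, p.Prime → p ∣ x → ¬ p ∣ Q) (hbQ : ∀ p : ℕ, p.Prime → p ∣ Q → ¬ p ^ 2 ∣ b)
    (hQ0 : 0 < Q) (hD : 0 < D0) (hT : T ≤ D0 ^ 2) (hx0 : 0 < x) (hb1 : x ^ 2 ≤ 8 * (Q * (b - 1)))
    (hb2 : x ^ 2 ≤ 8 * (x ^ 2 - Q * b - Q ^ 2 * T)) (hb3 : Q * b + Q ^ 2 * T ≤ x ^ 2)
    (h1 : 48 * x ^ 2 < D0 ^ 4) (h2 : 4 * (Q ^ 2 * T) < D0 ^ 2)
    (hM : 512 * (Q ^ 2 * T) * (2 ^ J * D0) ^ 2 ≤ 3 * x ^ 2 * M)
    (h3 : Q ^ 2 * T ≤ 2 * (2 ^ J * D0)) (S0 : Finset ℕ) (hS0 : ∀ t ∈ S0, t < T)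
    (hsift : ∀ t ∈ S0, Sift z x b Q t) :
    (S0.card : ℝ) ≤ (S0.filter (fun t => Good' x b Q t)).card +
      3 * (T * (2 / ((z : ℝ) + 1)) + D0 +
        (J * ((M + 2) * D0) + (2 * x ^ 2) / (2 ^ J * D0) ^ 2 : ℕ)) +
      x.primeFactors.card * (T / ((z : ℝ) + 1) + 1) := by
  have hx2 : 0 < x ^ 2 := by positivity
  set S1 := S0.filter (fun t => ∃ p : ℕ, p.Prime ∧ z < p ∧ p ^ 2 ∣ b + Q * t) with hS1
  set S2 := S0.filter (fun t => ∃ p : ℕ, p.Prime ∧ z < p ∧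
    p ^ 2 ∣ x ^ 2 - Q * (b + Q * t)) with hS2
  set S3 := S0.filter (fun t => ∃ p : ℕ, p.Prime ∧ z < p ∧
    p ^ 2 ∣ x ^ 2 + Q * (b + Q * t)) with hS3
  set S4 := S0.filter (fun t => ∃ p : ℕ, p.Prime ∧ z < p ∧ p ∣ x ∧ p ∣ b + Q * t)
    with hS4
  have hcov : S0 ⊆ S0.filter (fun t => Good' x b Q t) ∪
      (S1 ∪ (S2 ∪ (S3 ∪ S4))) := by
    intro t ht
    by_cases hg : Good' x b Q t
    · exact mem_union_left _ (mem_filter.mpr ⟨ht, hg⟩)
    · apply mem_union_right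
      unfold Good' at hg
      push Not at hg
      obtain ⟨p, hp, hpQ, hg⟩ := hg
      have hp64 : z < p := by
        by_contra hcon
        push Not at hcon
        obtain ⟨n1, n2, n3⟩ := hsift t ht p hp hpQ hcon
        have c1 : ¬ p ^ 2 ∣ b + Q * t := fun h => n1 ((dvd_pow_self p two_ne_zero).trans h)
        have c2 : ¬ p ^ 2 ∣ x ^ 2 - Q * (b + Q * t) :=
          fun h => n2 ((dvd_pow_self p two_ne_zero).trans h)
        have c3 : ¬ p ^ 2 ∣ x ^ 2 + Q * (b + Q * t) :=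
          fun h => n3 ((dvd_pow_self p two_ne_zero).trans h)
        exact n1 (hg c1 c2 c3).2
      by_cases c1 : p ^ 2 ∣ b + Q * t
      · exact mem_union_left _ (mem_filter.mpr ⟨ht, p, hp, hp64, c1⟩)
      · apply mem_union_right
        by_cases c2 : p ^ 2 ∣ x ^ 2 - Q * (b + Q * t)
        · exact mem_union_left _ (mem_filter.mpr ⟨ht, p, hp, hp64, c2⟩)
        · apply mem_union_right
          by_cases c3 : p ^ 2 ∣ x ^ 2 + Q * (b + Q * t)
          · exact mem_union_left _ (mem_filter.mpr ⟨ht, p, hp, hp64, c3⟩)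
          · apply mem_union_right
            obtain ⟨c4, c5⟩ := hg c1 c2 c3
            exact mem_filter.mpr ⟨ht, p, hp, hp64, c4, c5⟩
  have hc : S0.card ≤ (S0.filter (fun t => Good' x b Q t)).card +
      (S1.card + (S2.card + (S3.card + S4.card))) := by
    have e1 := card_le_card hcov
    refine e1.trans ((card_union_le _ _).trans ?_)
    apply Nat.add_le_add_left
    refine (card_union_le _ _).trans ?_
    apply Nat.add_le_add_left
    refine (card_union_le _ _).trans ?_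
    apply Nat.add_le_add_left
    exact card_union_le _ _
  have hmono : ∀ t, t < T → Q * t + Q ≤ Q * T := by
    intro t ht
    calc Q * t + Q = Q * (t + 1) := by ring
      _ ≤ Q * T := Nat.mul_le_mul_left _ ht
  have hmono2 : ∀ t, t < T → Q ^ 2 * t + Q ^ 2 ≤ Q ^ 2 * T := by
    intro t ht
    calc Q ^ 2 * t + Q ^ 2 = Q ^ 2 * (t + 1) := by ring
      _ ≤ Q ^ 2 * T := Nat.mul_le_mul_left _ ht
  have hQQ : Q * T ≤ Q ^ 2 * T := by
    apply Nat.mul_le_mul_right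
    nlinarith
  have hQ2pos : 0 < Q ^ 2 := by positivity
  have hexp : ∀ t, Q * (b + Q * t) = Q * b + Q ^ 2 * t := fun t => by ring
  have hdiv : ∀ A : ℕ, A ≤ 2 * x ^ 2 → A / (2 ^ J * D0) ^ 2 ≤ (2 * x ^ 2) / (2 ^ J * D0) ^ 2 :=
    fun A hA => Nat.div_le_div_right hA
  have hMi : ∀ N : ℕ, x ^ 2 ≤ 8 * N → 64 * (Q ^ 2 * T) * (2 ^ J * D0) ^ 2 ≤ 3 * N * M := by
    intro N hN
    have e1 : 3 * x ^ 2 * M ≤ 3 * (8 * N) * M := by
      apply Nat.mul_le_mul_right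
      omega
    have e2 : 8 * (64 * (Q ^ 2 * T) * (2 ^ J * D0) ^ 2) ≤ 8 * (3 * N * M) := by
      calc 8 * (64 * (Q ^ 2 * T) * (2 ^ J * D0) ^ 2) = 512 * (Q ^ 2 * T) * (2 ^ J * D0) ^ 2 := by
            ring
        _ ≤ 3 * x ^ 2 * M := hM
        _ ≤ 3 * (8 * N) * M := e1
        _ = 8 * (3 * N * M) := by ring
    omega
  have hMb : 64 * (Q * T) * (2 ^ J * D0) ^ 2 ≤ 3 * (b - 1) * M := by
    have e1 : 3 * x ^ 2 * M ≤ 3 * (8 * (Q * (b - 1))) * M := by
      apply Nat.mul_le_mul_right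
      omega
    have e2 : (8 * Q) * (64 * (Q * T) * (2 ^ J * D0) ^ 2) ≤ (8 * Q) * (3 * (b - 1) * M) := by
      calc (8 * Q) * (64 * (Q * T) * (2 ^ J * D0) ^ 2) =
            512 * (Q ^ 2 * T) * (2 ^ J * D0) ^ 2 := by ring
        _ ≤ 3 * x ^ 2 * M := hM
        _ ≤ 3 * (8 * (Q * (b - 1))) * M := e1
        _ = (8 * Q) * (3 * (b - 1) * M) := by ring
    exact Nat.le_of_mul_le_mul_left e2 (by positivity)
  have hbpos : 0 < b - 1 := by
    rcases Nat.eq_zero_or_pos (b - 1) with h | h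
    · rw [h] at hb1
      omega
    · exact h
  have hQb : b ≤ Q * b := Nat.le_mul_of_pos_left b hQ0
  -- no square of a prime dividing `Q` divides the forms
  have hv1 : ∀ p : ℕ, p.Prime → p ∣ Q → ∀ t, ¬ p ^ 2 ∣ b + Q * t := by
    intro p hp hpQ t hd
    apply hbQ p hp hpQ
    exact (Nat.dvd_add_left (Dvd.dvd.mul_right (hQsq p hp hpQ) t)).mp hd
  have hv2 : ∀ p : ℕ, p.Prime → p ∣ Q → ∀ t, t < T → ¬ p ^ 2 ∣ x ^ 2 - Q * (b + Q * t) := by
    intro p hp hpQ t ht hd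
    have hd' : p ∣ x ^ 2 - Q * (b + Q * t) := (Dvd.intro_left (p ^ 1) (by ring)).trans hd
    have hle : Q * (b + Q * t) ≤ x ^ 2 := by
      have := hmono2 t ht
      rw [hexp]
      omega
    have h5 : p ∣ Q * (b + Q * t) := Dvd.dvd.mul_right hpQ _
    have h6 : p ∣ x ^ 2 := by
      have := Nat.dvd_add hd' h5
      rwa [Nat.sub_add_cancel hle] at this
    exact hxQ p hp (hp.dvd_of_dvd_pow h6) hpQ
  have hv3 : ∀ p : ℕ, p.Prime → p ∣ Q → ∀ t, ¬ p ^ 2 ∣ x ^ 2 + Q * (b + Q * t) := by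
    intro p hp hpQ t hd
    have hd' : p ∣ x ^ 2 + Q * (b + Q * t) := (Dvd.intro_left (p ^ 1) (by ring)).trans hd
    have h5 : p ∣ Q * (b + Q * t) := Dvd.dvd.mul_right hpQ _
    have h6 : p ∣ x ^ 2 := (Nat.dvd_add_left h5).mp hd'
    exact hxQ p hp (hp.dvd_of_dvd_pow h6) hpQ
  have hQ2 : ∀ p : ℕ, p.Prime → ¬ p ∣ Q → ¬ p ∣ Q ^ 2 := fun p hp h h' =>
    h (hp.dvd_of_dvd_pow h')
  have g1 : (S1.card : ℝ) ≤ T * (2 / ((z : ℝ) + 1)) + D0 +
      (J * ((M + 2) * D0) + (2 * x ^ 2) / (2 ^ J * D0) ^ 2 : ℕ) := by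
    have := form_bad_z z (b - 1) (Q * T) D0 M J T (fun t => b + Q * t) hbpos hD
      (by
        intro t ht
        have := hmono t ht
        show b - 1 < b + Q * t ∧ b + Q * t ≤ b - 1 + Q * T
        omega)
      (by
        intro p hp hp64 s t _ _ hs ht
        by_cases hpQ : p ∣ Q
        · exact absurd hs (hv1 p hp hpQ s)
        apply canc p Q s t hp hpQ
        apply Nat.ModEq.add_left_cancel' b
        rw [Nat.ModEq, Nat.mod_eq_zero_of_dvd hs, Nat.mod_eq_zero_of_dvd ht])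
      hT (by omega) (by omega) hMb (by omega) S1 (fun t ht => hS0 t (mem_filter.mp ht).1)
      (fun t ht => (mem_filter.mp ht).2)
    refine this.trans ?_
    have e := hdiv (b - 1 + Q * T) (by omega)
    have e' : ((J * ((M + 2) * D0) + (b - 1 + Q * T) / (2 ^ J * D0) ^ 2 : ℕ) : ℝ) ≤
        ((J * ((M + 2) * D0) + (2 * x ^ 2) / (2 ^ J * D0) ^ 2 : ℕ) : ℝ) := by
      exact_mod_cast Nat.add_le_add_left e _
    linarith
  have g2 : (S2.card : ℝ) ≤ T * (2 / ((z : ℝ) + 1)) + D0 +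
      (J * ((M + 2) * D0) + (2 * x ^ 2) / (2 ^ J * D0) ^ 2 : ℕ) := by
    have := form_bad_z z (x ^ 2 - Q * b - Q ^ 2 * T) (Q ^ 2 * T) D0 M J T
      (fun t => x ^ 2 - Q * (b + Q * t))
      (by omega) hD
      (by
        intro t ht
        have := hmono2 t ht
        show x ^ 2 - Q * b - Q ^ 2 * T < x ^ 2 - Q * (b + Q * t) ∧
          x ^ 2 - Q * (b + Q * t) ≤ x ^ 2 - Q * b - Q ^ 2 * T + Q ^ 2 * T
        rw [hexp]
        omega)
      (by
        intro p hp hp64 s t hs' ht' hs ht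
        by_cases hpQ : p ∣ Q
        · exact absurd hs (hv2 p hp hpQ s hs')
        apply canc p (Q ^ 2) s t hp (hQ2 p hp hpQ)
        have q1 := hmono2 s hs'
        have q2 := hmono2 t ht'
        have e3 := hexp s
        have e4 := hexp t
        have e : (x ^ 2 - Q * (b + Q * s)) + Q ^ 2 * s = (x ^ 2 - Q * (b + Q * t)) + Q ^ 2 * t := by
          omega
        have e1 : (x ^ 2 - Q * (b + Q * s)) + Q ^ 2 * s ≡
            (x ^ 2 - Q * (b + Q * s)) + Q ^ 2 * t [MOD p ^ 2] := by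
          rw [e]
          apply Nat.ModEq.add_right
          rw [Nat.ModEq, Nat.mod_eq_zero_of_dvd hs, Nat.mod_eq_zero_of_dvd ht]
        exact Nat.ModEq.add_left_cancel' _ e1)
      hT (by omega) h2 (hMi _ hb2) h3 S2 (fun t ht => hS0 t (mem_filter.mp ht).1)
      (fun t ht => (mem_filter.mp ht).2)
    refine this.trans ?_
    have e := hdiv (x ^ 2 - Q * b - Q ^ 2 * T + Q ^ 2 * T) (by omega)
    have e' : ((J * ((M + 2) * D0) + (x ^ 2 - Q * b - Q ^ 2 * T + Q ^ 2 * T) /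
        (2 ^ J * D0) ^ 2 : ℕ) : ℝ) ≤
        ((J * ((M + 2) * D0) + (2 * x ^ 2) / (2 ^ J * D0) ^ 2 : ℕ) : ℝ) := by
      exact_mod_cast Nat.add_le_add_left e _
    linarith
  have g3 : (S3.card : ℝ) ≤ T * (2 / ((z : ℝ) + 1)) + D0 +
      (J * ((M + 2) * D0) + (2 * x ^ 2) / (2 ^ J * D0) ^ 2 : ℕ) := by
    have := form_bad_z z (x ^ 2 + Q * b - 1) (Q ^ 2 * T) D0 M J T (fun t => x ^ 2 + Q * (b + Q * t))
      (by omega) hD
      (by
        intro t ht
        have := hmono2 t ht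
        show x ^ 2 + Q * b - 1 < x ^ 2 + Q * (b + Q * t) ∧
          x ^ 2 + Q * (b + Q * t) ≤ x ^ 2 + Q * b - 1 + Q ^ 2 * T
        rw [hexp]
        omega)
      (by
        intro p hp hp64 s t _ _ hs ht
        by_cases hpQ : p ∣ Q
        · exact absurd hs (hv3 p hp hpQ s)
        apply canc p (Q ^ 2) s t hp (hQ2 p hp hpQ)
        apply Nat.ModEq.add_left_cancel' (x ^ 2 + Q * b)
        have e1 : x ^ 2 + Q * b + Q ^ 2 * s = x ^ 2 + Q * (b + Q * s) := by ring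
        have e2 : x ^ 2 + Q * b + Q ^ 2 * t = x ^ 2 + Q * (b + Q * t) := by ring
        rw [e1, e2, Nat.ModEq, Nat.mod_eq_zero_of_dvd hs, Nat.mod_eq_zero_of_dvd ht])
      hT (by omega) h2 (hMi _ (by omega)) h3 S3 (fun t ht => hS0 t (mem_filter.mp ht).1)
      (fun t ht => (mem_filter.mp ht).2)
    refine this.trans ?_
    have e := hdiv (x ^ 2 + Q * b - 1 + Q ^ 2 * T) (by omega)
    have e' : ((J * ((M + 2) * D0) + (x ^ 2 + Q * b - 1 + Q ^ 2 * T) / (2 ^ J * D0) ^ 2 : ℕ) : ℝ) ≤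
        ((J * ((M + 2) * D0) + (2 * x ^ 2) / (2 ^ J * D0) ^ 2 : ℕ) : ℝ) := by
      exact_mod_cast Nat.add_le_add_left e _
    linarith
  have g4 := gcd_bad_z z x b Q T hxQ S4 (fun t ht => hS0 t (mem_filter.mp ht).1)
    (fun t ht => (mem_filter.mp ht).2) (by omega)
  have hc' : (S0.card : ℝ) ≤ (S0.filter (fun t => Good' x b Q t)).card +
      (S1.card + (S2.card + (S3.card + S4.card))) := by exact_mod_cast hc
  linarith


end Pool.Agent.Y859.SI
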