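import Pool.Agent.Y859.SI.Par
import Pool.Agent.Y859.SI.Sft

set_option autoImplicit false
set_option maxHeartbeats 4000000

/-! # Almost prime congruent numbers in short intervals, uniformly in the residue class

After `Pool/Agent/TH999/CNM/Unif.lean`. -/

namespace Pool.Agent.Y859.SI

open Finset Filter Asymptotics Pool.Agent.TH827.CN Pool.Agent.TH999.CNM

lemma ev_log_pow (a b C : ℝ) (hC : 0 ≤ C) (hab : a < b) :
    ∀ᶠ ξ : ℝ in atTop, C * (1 + Real.log ξ) ^ 4 * ξ ^ a ≤ ξ ^ b := by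
  obtain ⟨d, hd⟩ : ∃ d : ℝ, d = (b - a) / 5 := ⟨_, rfl⟩
  have hd0 : 0 < d := by rw [hd]; linarith
  filter_upwards [eventually_ge_atTop 1, ev_log 0 d 1 zero_le_one hd0, ev_pow 0 d C hd0] with
    ξ h1 h2 h3
  have hξ0 : 0 < ξ := by linarith
  rw [Real.rpow_zero, mul_one, one_mul] at h2
  rw [Real.rpow_zero, mul_one] at h3
  have hl : 0 ≤ 1 + Real.log ξ := by
    have := Real.log_nonneg h1
    linarith
  have h4 : (1 + Real.log ξ) ^ 4 ≤ (ξ ^ d) ^ 4 := pow_le_pow_left₀ hl h2 4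
  have h5 : (ξ ^ d) ^ 4 = ξ ^ (4 * d) := by
    rw [← Real.rpow_natCast (ξ ^ d) 4, ← Real.rpow_mul hξ0.le]
    congr 1
    push_cast
    ring
  rw [h5] at h4
  calc C * (1 + Real.log ξ) ^ 4 * ξ ^ a ≤ ξ ^ d * ξ ^ (4 * d) * ξ ^ a := by
        apply mul_le_mul_of_nonneg_right _ (by positivity)
        exact mul_le_mul h3 h4 (by positivity) (by positivity)
    _ = ξ ^ b := by
        rw [← Real.rpow_add hξ0, ← Real.rpow_add hξ0]
        congr 1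
        rw [hd]
        ring

/-- uniform version in the modulus -/
theorem unif_z (δ : ℝ) (hδ0 : 0 < δ) (hδ1 : δ ≤ 1 / 24) : ∃ K : ℕ, 1 ≤ K ∧
    ∀ᶠ ξ : ℝ in atTop, ∀ m b0 Q : ℕ,
    Q = m ^ 2 → 0 < m → (∀ p : ℕ, p.Prime → p ≤ 64 → p ∣ m) →
    (∀ p : ℕ, p.Prime → p ∣ Q → ¬ p ^ 2 ∣ b0) →
    (Q : ℝ) ≤ ξ ^ (9 / 10 * δ) → ∃ A : Finset ℕ, ξ ^ (1 / 2 : ℝ) ≤ A.card ∧
      ∀ n ∈ A, n ∈ CSet' Q b0 (2 * ξ ^ 6 / (3 * √3) / Q)
        (261 * (Q : ℝ) ^ (3 / 2 : ℝ) * ξ ^ (4 + 2 * (19 / 10 * δ))) ∧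
        ∀ p : ℕ, p.Prime → p ∣ n → ¬ p ∣ Q → ξ ^ (1 / (2 * K) : ℝ) < p := by
  obtain ⟨K, z0, hK, hz0, v, hv, hsl⟩ := sift_low
  refine ⟨K, hK, ?_⟩
  have hKr : (1 : ℝ) ≤ K := by exact_mod_cast hK
  obtain ⟨η, hη⟩ : ∃ η : ℝ, η = 19 / 10 * δ := ⟨_, rfl⟩
  obtain ⟨c, hc⟩ : ∃ c : ℝ, c = 9 / 10 * δ := ⟨_, rfl⟩
  obtain ⟨κ, hκ⟩ : ∃ κ : ℝ, κ = 1 / 50 * δ := ⟨_, rfl⟩
  obtain ⟨ε, hε⟩ : ∃ ε : ℝ, ε = 1 / (2 * K) := ⟨_, rfl⟩
  rw [← hη, ← hc, ← hε]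
  have hη0 : 0 < η := by rw [hη]; positivity
  have hc0 : 0 < c := by rw [hc]; positivity
  have hκ0 : 0 < κ := by rw [hκ]; positivity
  have hε0 : 0 < ε := by rw [hε]; positivity
  filter_upwards [eventually_ge_atTop 100, ev_pow c 1 8 (by linarith),
    ev_pow (c + η) 1 1000 (by linarith),
    ev_pow (4 * c + (1 + 2 * η)) 3 4 (by linarith),
    ev_pow (2 * c + (1 / 2 + η)) 1 1 (by linarith),
    ev_pow (1 / 2) (3 / 4 - (η - κ) / 2) 7 (by linarith),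
    ev_pow (2 * c + (1 / 2 + η)) (3 / 4 - (η - κ) / 2) 1 (by linarith),
    ev_pow 0 η 100 hη0,
    ev_log_pow 0 ε (96 / v) (by positivity) hε0,
    ev_log_pow (2 * c + κ) η (3120 * 700004 / v) (by positivity) (by linarith),
    ev_log_pow 0 κ (1 / (3 * v)) (by positivity) hκ0,
    (tendsto_rpow_atTop hε0).eventually_ge_atTop ((z0 : ℝ) + 1)] with
    ξ h100 g1 g2 g3 g4 g5 g6 g9 G1 G2 G3 G4
  intro m b0 Q hQm hm0 hm64 hb0 hQv
  have hξ0 : (0 : ℝ) < ξ := by linarith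
  have hQ0 : 0 < Q := by rw [hQm]; positivity
  have hQr : (1 : ℝ) ≤ Q := by exact_mod_cast hQ0
  have hQp : (0 : ℝ) < Q := by linarith
  have hv0 : 0 < ξ ^ c := by positivity
  have pw : ∀ k : ℕ, (ξ ^ c) ^ k = ξ ^ (k * c) := by
    intro k
    rw [← Real.rpow_natCast (ξ ^ c) k, ← Real.rpow_mul hξ0.le]
    congr 1
    ring
  have hQk : ∀ k : ℕ, (Q : ℝ) ^ k ≤ ξ ^ (k * c) := by
    intro k
    rw [← pw]
    exact pow_le_pow_left₀ hQp.le hQv k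
  have hQ2 : (Q : ℝ) ^ 2 ≤ ξ ^ (2 * c) := by
    have := hQk 2
    push_cast at this
    exact this
  have hQ4 : ((Q : ℝ) ^ 2) ^ 2 ≤ ξ ^ (4 * c) := by
    have := hQk 4
    push_cast at this
    calc ((Q : ℝ) ^ 2) ^ 2 = (Q : ℝ) ^ 4 := by ring
      _ ≤ ξ ^ (4 * c) := this
  have hξ1 : (1 : ℝ) ≤ ξ := by linarith
  have hlog0 : 0 ≤ Real.log ξ := Real.log_nonneg hξ1
  rw [Real.rpow_add hξ0 c η] at g2
  rw [Real.rpow_add hξ0 (4 * c) (1 + 2 * η)] at g3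
  rw [Real.rpow_add hξ0 (2 * c) (1 / 2 + η)] at g4 g6
  rw [Real.rpow_add hξ0 (2 * c) κ] at G2
  rw [Real.rpow_zero, mul_one] at G1 G3
  have hC1 : (2 + 3 * Q : ℝ) ≤ 5 * Q := by linarith
  obtain ⟨l, hl⟩ : ∃ l : ℝ, l = 1 + Real.log ξ := ⟨_, rfl⟩
  rw [← hl] at G1 G2 G3
  have hl1 : 1 ≤ l := by rw [hl]; linarith
  have hl4 : 0 ≤ l ^ 4 := by positivity
  -- the sifting level
  obtain ⟨z, hz⟩ : ∃ z : ℕ, z = ⌊ξ ^ ε⌋₊ := ⟨_, rfl⟩
  have hzle : (z : ℝ) ≤ ξ ^ ε := by rw [hz]; exact Nat.floor_le (by positivity)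
  have hzlt : ξ ^ ε < z + 1 := by rw [hz]; exact Nat.lt_floor_add_one _
  have hzz0 : z0 ≤ z := by
    have : (z0 : ℝ) < z + 1 := by linarith
    have : z0 < z + 1 := by exact_mod_cast this
    omega
  have hz2 : 2 ≤ z := hz0.trans hzz0
  have hzK : (z : ℝ) ^ K ≤ ξ ^ (1 / 2 : ℝ) := by
    calc (z : ℝ) ^ K ≤ (ξ ^ ε) ^ K := pow_le_pow_left₀ (Nat.cast_nonneg _) hzle K
      _ = ξ ^ (1 / 2 : ℝ) := by
          rw [← Real.rpow_natCast (ξ ^ ε) K, ← Real.rpow_mul hξ0.le]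
          congr 1
          rw [hε]
          field_simp
  have hw0 : 0 < ξ ^ κ := by positivity
  have hw1 : 1 ≤ ξ ^ κ := Real.one_le_rpow hξ1 hκ0.le
  obtain ⟨M, hM⟩ : ∃ M : ℕ, M = ⌈700000 * (Q : ℝ) ^ 2 * ξ ^ κ⌉₊ := ⟨_, rfl⟩
  have hM1 : 700000 * (Q : ℝ) ^ 2 * ξ ^ κ ≤ M := by rw [hM]; exact Nat.le_ceil _
  have hM2 : (M : ℝ) < 700000 * (Q : ℝ) ^ 2 * ξ ^ κ + 1 := by
    rw [hM]
    exact Nat.ceil_lt_add_one (by positivity)
  have hM3 : (M : ℝ) + 3 ≤ 700004 * (ξ ^ (2 * c) * ξ ^ κ) := by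
    have e1 : (Q : ℝ) ^ 2 * ξ ^ κ ≤ ξ ^ (2 * c) * ξ ^ κ := mul_le_mul_of_nonneg_right hQ2 hw0.le
    have e2 : 1 ≤ ξ ^ (2 * c) * ξ ^ κ := by
      have : 1 ≤ ξ ^ (2 * c) := Real.one_le_rpow hξ1 (by linarith)
      exact one_le_mul_of_one_le_of_one_le this hw1
    linarith
  obtain ⟨A, hA1, hA2⟩ := param_core_z m b0 Q z K hQm hm0 hm64 hb0 η κ v hη0 (by linarith) hκ0
    (by linarith) hv (2 + 3 * Q) rfl ξ M hM1 h100
    (by
      rw [Real.rpow_one] at g1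
      linarith)
    (by
      refine le_trans ?_ g2
      calc 200 * (2 + 3 * (Q : ℝ)) * ξ ^ η ≤ 200 * (5 * ξ ^ c) * ξ ^ η := by
            apply mul_le_mul_of_nonneg_right _ (by positivity)
            linarith
        _ = 1000 * (ξ ^ c * ξ ^ η) := by ring)
    (by
      refine le_trans ?_ g3
      calc 4 * ((Q : ℝ) ^ 2) ^ 2 * ξ ^ (1 + 2 * η) ≤ 4 * ξ ^ (4 * c) * ξ ^ (1 + 2 * η) := by
            apply mul_le_mul_of_nonneg_right _ (by positivity)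
            linarith
        _ = 4 * (ξ ^ (4 * c) * ξ ^ (1 + 2 * η)) := by ring)
    (by
      refine le_trans ?_ g4
      rw [one_mul]
      exact mul_le_mul_of_nonneg_right hQ2 (by positivity))
    g5
    (by
      refine le_trans ?_ g6
      rw [one_mul]
      exact mul_le_mul_of_nonneg_right hQ2 (by positivity))
    g9
    (by
      rw [← hl]
      have e1 : 96 * l ^ 4 ≤ v * ξ ^ ε := by
        have := mul_le_mul_of_nonneg_left G1 hv.le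
        calc 96 * l ^ 4 = v * (96 / v * l ^ 4) := by field_simp
          _ ≤ v * ξ ^ ε := this
      have e2 : v * ξ ^ ε ≤ v * (z + 1) := mul_le_mul_of_nonneg_left hzlt.le hv.le
      linarith)
    (by
      rw [← hl]
      have e1 := mul_le_mul_of_nonneg_left G2 hv.le
      refine le_trans ?_ e1
      have e2 : 3120 * ((M : ℝ) + 3) * l ^ 4 ≤ 3120 * (700004 * (ξ ^ (2 * c) * ξ ^ κ)) * l ^ 4 := by
        apply mul_le_mul_of_nonneg_right _ hl4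
        linarith
      refine e2.trans (le_of_eq ?_)
      field_simp)
    (by
      rw [← hl]
      have e1 : l ^ 3 ≤ l ^ 4 := pow_le_pow_right₀ hl1 (by norm_num)
      have e2 := mul_le_mul_of_nonneg_left G3 (by positivity : 0 ≤ 3 * v)
      calc l ^ 3 ≤ l ^ 4 := e1
        _ = 3 * v * (1 / (3 * v) * l ^ 4) := by field_simp
        _ ≤ 3 * v * ξ ^ κ := e2)
    hz2 hK hzK
    (fun T x b hT hx => hsl T z hzz0 hT x b Q (by
      intro p hp hp64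
      rw [hQm]
      exact Dvd.dvd.pow (hm64 p hp hp64) (by norm_num)) hx)
  refine ⟨A, hA1, ?_⟩
  intro n hn
  obtain ⟨⟨q1, q2, q3⟩, q4⟩ := hA2 n hn
  refine ⟨⟨q1, q2.trans ?_, q3⟩, ?_⟩
  · have hs : √(2 + 3 * (Q : ℝ)) ≤ 9 / 4 * √Q := by
      have h1 : (9 / 4 * √Q : ℝ) = √((9 / 4) ^ 2 * Q) := by
        rw [Real.sqrt_mul (by norm_num), Real.sqrt_sq (by norm_num)]
      rw [h1]
      apply Real.sqrt_le_sqrt
      linarith
    have hq : √(Q : ℝ) * Q = (Q : ℝ) ^ (3 / 2 : ℝ) := by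
      rw [Real.sqrt_eq_rpow]
      nth_rewrite 2 [← Real.rpow_one (Q : ℝ)]
      rw [← Real.rpow_add hQp]
      norm_num
    have h1 : 116 * √(2 + 3 * (Q : ℝ)) * Q * ξ ^ (4 + 2 * η) ≤
        261 * (Q : ℝ) ^ (3 / 2 : ℝ) * ξ ^ (4 + 2 * η) := by
      rw [← hq]
      calc 116 * √(2 + 3 * (Q : ℝ)) * Q * ξ ^ (4 + 2 * η) ≤
            116 * (9 / 4 * √Q) * Q * ξ ^ (4 + 2 * η) := by
            apply mul_le_mul_of_nonneg_right _ (by positivity)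
            apply mul_le_mul_of_nonneg_right _ (by positivity)
            linarith
        _ = 261 * (√Q * Q) * ξ ^ (4 + 2 * η) := by ring
    linarith
  · intro p hp hpn hpQ
    have h1 := q4 p hp hpn hpQ
    have h2 : (z : ℝ) + 1 ≤ p := by exact_mod_cast h1
    linarith

end Pool.Agent.Y859.SI
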